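import Pool.Agent.helper57.MS.Spec2

/-!
# ms:PMI (MP_b48e27_co): the normalised sum vanishes for the restrictions of tensors with small minors
-/

set_option autoImplicit false

open Finset

namespace Pool.Agent.helper57.MS

open Pool.Agent.RRank Pool.Agent.helper26.IM

theorem PMI_apply {d l : ℕ} {Q : Fin d → Type} {K : Type} [Field K]
    (c : (Fin d → Equiv.Perm (Fin l)) → K)
    (g : ((α : Fin d) → Q α) → K) (x : (w : Fin d × Fin l) → Q w.1) :
    HC l c g x = ∑ σ : Fin d → Equiv.Perm (Fin l), c σ *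
      ∏ i : Fin l, g (fun α => x (α, σ α i)) := by
  unfold HC cop
  rw [Finset.sum_apply]
  refine Finset.sum_congr rfl (fun σ _ => ?_)
  rw [Pi.smul_apply, Finset.prod_apply, smul_eq_mul]

theorem PMI (hPVN : PVN_stmt) : PMI_stmt := by
  classical
  intro K _ d l Q R T hT A hev hA S hAS s₀ hs₀ q
  funext x
  let x' : (w : Fin d × Fin l) → Q w.1 := fun w => if w.1 ∈ S then x w else q w.1
  let X : (α : Fin d) → Finset (Q α) := fun α => univ.image (fun j : Fin l => x' (α, j))
  have hX : ∀ α, (X α).card ≤ l := fun α => by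
    refine (Finset.card_image_le).trans ?_
    rw [Finset.card_univ, Fintype.card_fin]
  obtain ⟨r, hr, hs⟩ := exists_sumOf_of_rank_lt (hT X hX)
  have h1 := hPVN K d l r (fun α => X α) R (minor T X) hr hs A hev hA S hAS s₀ hs₀
    (fun w => ⟨x' w, Finset.mem_image.2 ⟨w.2, mem_univ _, rfl⟩⟩) (by
      intro γ hγ j j'
      apply Subtype.ext
      show x' (γ, j) = x' (γ, j')
      simp only [x', if_neg hγ])
  rw [PMI_apply] at h1
  rw [PMI_apply]
  exact h1

end Pool.Agent.helper57.MS
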