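import Pool.Agent.helper75.MS.Digits

/-! the digit sum condition in terms of the digits of `d` (cyclic convolution with carries) -/

namespace Pool.Agent.helper75.MS

open Finset

/-- the `i`-th cyclic convolution of `j` and `D` -/
def cv (n : ℕ) (j D : ℕ → ℕ) (i : ℕ) : ℕ := ∑ s ∈ range n, j ((i + n - s) % n) * D s

theorem sum_shift {R : Type} [CommRing R] {P : R} {n : ℕ} (hP : P ^ n = 1) (f : ℕ → R) {s : ℕ}
    (hs : s < n) :
    ∑ i ∈ range n, P ^ i * f ((i + n - s) % n) = P ^ s * ∑ i ∈ range n, P ^ i * f i := by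
  rw [Finset.mul_sum]
  refine Finset.sum_nbij' (fun i => (i + n - s) % n) (fun k => (k + s) % n) ?_ ?_ ?_ ?_ ?_
  · intro i _
    simp only [mem_range]
    exact Nat.mod_lt _ (by omega)
  · intro i _
    simp only [mem_range]
    exact Nat.mod_lt _ (by omega)
  · intro i hi
    have hi' := mem_range.1 hi
    show ((i + n - s) % n + s) % n = i
    rw [Nat.mod_add_mod, show i + n - s + s = i + n by omega, Nat.add_mod_right,
      Nat.mod_eq_of_lt hi']
  · intro i hi
    have hi' := mem_range.1 hi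
    show ((i + s) % n + n - s) % n = i
    rcases Nat.lt_or_ge (i + s) n with h | h
    · rw [Nat.mod_eq_of_lt h, show i + s + n - s = i + n by omega, Nat.add_mod_right,
        Nat.mod_eq_of_lt hi']
    · have h2 : (i + s) % n = i + s - n := by
        rw [Nat.mod_eq_sub_mod h, Nat.mod_eq_of_lt (by omega)]
      rw [h2, show i + s - n + n - s = i by omega, Nat.mod_eq_of_lt hi']
  · intro i hi
    have hi' := mem_range.1 hi
    have e : P ^ i = P ^ s * P ^ ((i + n - s) % n) := by
      rw [← pow_add]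
      rcases Nat.lt_or_ge i s with h | h
      · rw [Nat.mod_eq_of_lt (by omega), show s + (i + n - s) = i + n by omega, pow_add, hP,
          mul_one]
      · rw [show i + n - s = (i - s) + n by omega, Nat.add_mod_right, Nat.mod_eq_of_lt (by omega),
          show s + (i - s) = i by omega]
    rw [← mul_assoc, ← e]

theorem conv_eq {R : Type} [CommRing R] {P : R} {n : ℕ} (hP : P ^ n = 1) (j D : ℕ → ℕ) :
    ∑ i ∈ range n, P ^ i * (cv n j D i : R) =
      (∑ s ∈ range n, P ^ s * (D s : R)) * ∑ i ∈ range n, P ^ i * (j i : R) := by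
  unfold cv
  push_cast
  rw [Finset.sum_mul]
  rw [Finset.sum_congr rfl fun i _ => Finset.mul_sum _ _ _]
  rw [Finset.sum_comm]
  apply Finset.sum_congr rfl
  intro s hs
  have := sum_shift hP (fun i => (j i : R)) (mem_range.1 hs)
  calc ∑ x ∈ range n, P ^ x * ((j ((x + n - s) % n) : R) * (D s : R))
      = (D s : R) * ∑ x ∈ range n, P ^ x * (j ((x + n - s) % n) : R) := by
        rw [Finset.mul_sum]; apply Finset.sum_congr rfl; intro x _; ring
    _ = (D s : R) * (P ^ s * ∑ i ∈ range n, P ^ i * (j i : R)) := by rw [this]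
    _ = _ := by ring

theorem S_sum {p : ℕ} (hp : 1 < p) : ∀ (n : ℕ) (x : ℕ → ℕ), (∀ i < n, x i < p) →
    S p (∑ i ∈ range n, x i * p ^ i) = ∑ i ∈ range n, x i := by
  intro n
  induction n with
  | zero => intro x _; simp [S]
  | succ n ih =>
    intro x hx
    rw [Finset.sum_range_succ', Finset.sum_range_succ' (fun i => x i)]
    have e : ∑ i ∈ range n, x (i + 1) * p ^ (i + 1) + x 0 * p ^ 0 =
        x 0 + p * ∑ i ∈ range n, x (i + 1) * p ^ i := by
      rw [Finset.mul_sum, add_comm]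
      congr 1
      · simp
      · apply Finset.sum_congr rfl; intro i _; ring
    rw [e, S_add hp _ _ (hx 0 (by omega)), ih (fun i => x (i + 1)) (fun i hi => hx _ (by omega))]
    ring

theorem sum_lt_pow {p : ℕ} : ∀ (n : ℕ) (x : ℕ → ℕ), (∀ i < n, x i < p) →
    ∑ i ∈ range n, x i * p ^ i < p ^ n := by
  intro n
  induction n with
  | zero => intro x _; simp
  | succ n ih =>
    intro x hx
    rw [Finset.sum_range_succ]
    have h1 := ih x (fun i hi => hx i (by omega))
    have h2 : x n + 1 ≤ p := hx n (by omega)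
    calc ∑ i ∈ range n, x i * p ^ i + x n * p ^ n < p ^ n + x n * p ^ n := by omega
      _ = (x n + 1) * p ^ n := by ring
      _ ≤ p * p ^ n := Nat.mul_le_mul_right _ h2
      _ = p ^ (n + 1) := by ring

theorem sum_compl {p : ℕ} : ∀ (n : ℕ) (x : ℕ → ℕ), (∀ i < n, x i < p) →
    ∑ i ∈ range n, x i * p ^ i + ∑ i ∈ range n, (p - 1 - x i) * p ^ i + 1 = p ^ n := by
  intro n
  induction n with
  | zero => intro x _; simp
  | succ n ih =>
    intro x hx
    rw [Finset.sum_range_succ, Finset.sum_range_succ]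
    have h1 := ih x (fun i hi => hx i (by omega))
    have h2 : x n < p := hx n (by omega)
    obtain ⟨y, hy⟩ : ∃ y, p = x n + y + 1 := ⟨p - 1 - x n, by omega⟩
    have h3 : p - 1 - x n = y := by omega
    rw [h3]
    calc _ = (∑ i ∈ range n, x i * p ^ i + ∑ i ∈ range n, (p - 1 - x i) * p ^ i + 1) +
          (x n + y) * p ^ n := by ring
      _ = p ^ n + (x n + y) * p ^ n := by rw [h1]
      _ = (x n + y + 1) * p ^ n := by ring
      _ = p * p ^ n := by rw [← hy]
      _ = p ^ (n + 1) := by ring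

theorem one_le_sum {p : ℕ} (hp : 0 < p) (n : ℕ) (x : ℕ → ℕ) (h : 0 < ∑ i ∈ range n, x i) :
    1 ≤ ∑ i ∈ range n, x i * p ^ i := by
  refine le_trans h (Finset.sum_le_sum fun i _ => ?_)
  exact Nat.le_mul_of_pos_right _ (Nat.pow_pos hp)

/-- the main inequality for the digits `D` of (a `p`-power multiple of) `d` -/
theorem HS.digits {p n L d : ℕ} (hp : 3 < p) (hn : 1 < n) (H : HS p n L d)
    (hd : Nat.Coprime d (p ^ n - 1)) (D : ℕ → ℕ)
    (he : (d : ZMod (p ^ n - 1)) = ((∑ i ∈ range n, D i * p ^ i : ℕ) : ZMod (p ^ n - 1)))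
    (j c : ℕ → ℕ) (hj0 : 0 < ∑ i ∈ range n, j i) (hj : ∀ i < n, j i < p)
    (hj1 : ∑ i ∈ range n, j i < n * (p - 1))
    (hl : ∀ i < n, p * c i ≤ cv n j D i + c ((i + n - 1) % n))
    (hu : ∀ i < n, cv n j D i + c ((i + n - 1) % n) < p * c i + p) :
    ∑ i ∈ range n, cv n j D i + ∑ i ∈ range n, c i + L * (p - 1) ≤
      ∑ i ∈ range n, j i + n * (p - 1) + p * ∑ i ∈ range n, c i := by
  have hp1 : 1 < p := by omega
  -- the digits of the product
  set x : ℕ → ℕ := fun i => cv n j D i + c ((i + n - 1) % n) - p * c i with hxdef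
  have hx : ∀ i < n, x i < p := fun i hi => by
    have := hl i hi; have := hu i hi; simp only [hxdef]; omega
  have hx2 : ∀ i < n, x i + p * c i = cv n j D i + c ((i + n - 1) % n) := fun i hi => by
    have := hl i hi; simp only [hxdef]; omega
  have hpn : 4 ≤ p ^ n := le_trans (by rw [pow_one]; exact hp : 4 ≤ p ^ 1)
    (Nat.pow_le_pow_right (by omega) (by omega))
  have hJ := sum_compl n j hj
  have hK : 1 ≤ ∑ i ∈ range n, (p - 1 - j i) * p ^ i := by
    apply one_le_sum (by omega)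
    have h1 : ∑ i ∈ range n, (p - 1 - j i) + ∑ i ∈ range n, j i = n * (p - 1) := by
      rw [← Finset.sum_add_distrib]
      rw [Finset.sum_congr rfl (g := fun _ => p - 1)]
      · simp
      · intro i hi
        have := hj i (mem_range.1 hi)
        omega
    omega
  have hJ1 := one_le_sum (p := p) (by omega) n j hj0
  have hX := sum_lt_pow n x hx
  -- cyclic shift of the carries
  have hcyc : ∑ i ∈ range n, c ((i + n - 1) % n) = ∑ i ∈ range n, c i := by
    have := sum_shift (R := ℤ) (P := 1) (n := n) (one_pow n) (fun i => (c i : ℤ)) (s := 1) hn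
    simp only [one_pow, one_mul] at this
    exact_mod_cast this
  have hcong : ((d * ∑ i ∈ range n, j i * p ^ i : ℕ) : ZMod (p ^ n - 1)) =
      ((∑ i ∈ range n, x i * p ^ i : ℕ) : ZMod (p ^ n - 1)) := by
    have hP : ((p : ZMod (p ^ n - 1))) ^ n = 1 := pow_eq_one_ZMod hp1
    rw [Nat.cast_mul, he]
    push_cast
    have e1 : ∀ f : ℕ → ℕ, ∑ i ∈ range n, (f i : ZMod (p ^ n - 1)) * (p : ZMod (p ^ n - 1)) ^ i =
        ∑ i ∈ range n, (p : ZMod (p ^ n - 1)) ^ i * (f i : ZMod (p ^ n - 1)) := fun f =>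
      Finset.sum_congr rfl fun i _ => mul_comm _ _
    rw [e1, e1, e1, ← conv_eq hP j D]
    have e2 : ∀ i ∈ range n, (p : ZMod (p ^ n - 1)) ^ i * (cv n j D i : ZMod (p ^ n - 1)) =
        (p : ZMod (p ^ n - 1)) ^ i * (x i : ZMod (p ^ n - 1)) +
        ((p : ZMod (p ^ n - 1)) * ((p : ZMod (p ^ n - 1)) ^ i * (c i : ZMod (p ^ n - 1))) -
        (p : ZMod (p ^ n - 1)) ^ i * (c ((i + n - 1) % n) : ZMod (p ^ n - 1))) := by
      intro i hi
      have := congrArg (Nat.cast (R := ZMod (p ^ n - 1))) (hx2 i (mem_range.1 hi))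
      push_cast at this
      linear_combination -(p : ZMod (p ^ n - 1)) ^ i * this
    rw [Finset.sum_congr rfl e2, Finset.sum_add_distrib, Finset.sum_sub_distrib, ← Finset.mul_sum]
    have e3 : ∑ i ∈ range n, (p : ZMod (p ^ n - 1)) ^ i * (c ((i + n - 1) % n) : ZMod (p ^ n - 1)) =
        (p : ZMod (p ^ n - 1)) * ∑ i ∈ range n, (p : ZMod (p ^ n - 1)) ^ i * (c i : ZMod (p ^ n - 1)) := by
      have := sum_shift hP (fun i => (c i : ZMod (p ^ n - 1))) hn
      rw [pow_one] at this
      exact this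
    rw [e3]
    ring
  have key := HS.apply H hd hJ1 (by omega) (by omega) hcong (by omega)
  rw [S_sum hp1 n x hx, S_sum hp1 n j hj] at key
  have hsum : ∑ i ∈ range n, x i + p * ∑ i ∈ range n, c i =
      ∑ i ∈ range n, cv n j D i + ∑ i ∈ range n, c i := by
    rw [Finset.mul_sum, ← Finset.sum_add_distrib, ← hcyc, ← Finset.sum_add_distrib]
    exact Finset.sum_congr rfl fun i hi => hx2 i (mem_range.1 hi)
  omega

theorem sum_cv (n : ℕ) (j D : ℕ → ℕ) :
    ∑ i ∈ range n, cv n j D i = (∑ i ∈ range n, j i) * ∑ i ∈ range n, D i := by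
  have := conv_eq (R := ℤ) (P := 1) (n := n) (one_pow n) j D
  simp only [one_pow, one_mul] at this
  rw [mul_comm]
  exact_mod_cast this

/-- no violation: the shape in which `HS` is used -/
def NV (n k L p : ℕ) (D : ℕ → ℕ) : Prop := ∀ j c : ℕ → ℕ, 0 < ∑ i ∈ range n, j i →
  (∀ i < n, j i < p) → ∑ i ∈ range n, j i < n * (p - 1) →
  (∀ i < n, p * c i ≤ cv n j D i + c ((i + n - 1) % n)) →
  (∀ i < n, cv n j D i + c ((i + n - 1) % n) < p * c i + p) →
  k * ∑ i ∈ range n, j i + L ≤ n + ∑ i ∈ range n, c i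

theorem HS.nv {p n L d k : ℕ} (hp : 3 < p) (hn : 1 < n) (H : HS p n L d)
    (hd : Nat.Coprime d (p ^ n - 1)) (D : ℕ → ℕ)
    (he : (d : ZMod (p ^ n - 1)) = ((∑ i ∈ range n, D i * p ^ i : ℕ) : ZMod (p ^ n - 1)))
    (hs : ∑ i ∈ range n, D i = k * (p - 1) + 1) : NV n k L p D := by
  intro j c h0 h1 h2 h3 h4
  have key := H.digits hp hn hd D he j c h0 h1 h2 h3 h4
  rw [sum_cv, hs] at key
  obtain ⟨m, rfl⟩ : ∃ m, p = m + 1 := ⟨p - 1, by omega⟩
  simp only [Nat.add_sub_cancel] at key
  generalize ∑ i ∈ range n, j i = J at *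
  generalize ∑ i ∈ range n, c i = C at *
  have hm : 0 < m := by omega
  have : (k * J + L) * m ≤ (n + C) * m := by nlinarith [key]
  exact Nat.le_of_mul_le_mul_right this hm

end Pool.Agent.helper75.MS
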