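import Pool.Agent.helper97.MS.M6a
import Mathlib.NumberTheory.JacobiSum.Basic
import Mathlib.FieldTheory.Finite.Trace

/-!
# MS project (MP_c072aa_co), module ws:M6b: divisibility of Weil sums and digit sums
-/

namespace Pool.Agent.helper75.MS

open Finset

/-! ### digit sums -/

theorem ds_add {p : ℕ} (hp : 1 < p) (r x : ℕ) (hr : r < p) :
    (Nat.digits p (r + p * x)).sum = r + (Nat.digits p x).sum := by
  by_cases h : r ≠ 0 ∨ x ≠ 0
  · rw [Nat.digits_add p hp r x hr h, List.sum_cons]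
  · push Not at h
    obtain ⟨rfl, rfl⟩ := h
    simp

theorem ds_compl {p : ℕ} (hp : 1 < p) (n : ℕ) : ∀ x : ℕ, x < p ^ n →
    (Nat.digits p (p ^ n - 1 - x)).sum + (Nat.digits p x).sum = n * (p - 1) := by
  induction n with
  | zero =>
    intro x hx
    have : x = 0 := by simpa using hx
    subst this
    simp
  | succ n ih =>
    intro x hx
    have hr : x % p < p := Nat.mod_lt _ (by omega)
    have hdm : x % p + p * (x / p) = x := Nat.mod_add_div x p
    have hx' : x / p < p ^ n := by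
      rw [Nat.div_lt_iff_lt_mul (by omega), ← pow_succ]
      exact hx
    have h1 := ih (x / p) hx'
    have h2 : p ^ (n + 1) - 1 - x = (p - 1 - x % p) + p * (p ^ n - 1 - x / p) := by
      have h3 : p * (p ^ n - 1 - x / p) + p * (x / p) + p = p ^ (n + 1) := by
        have : p ^ n - 1 - x / p + x / p + 1 = p ^ n := by omega
        calc p * (p ^ n - 1 - x / p) + p * (x / p) + p
            = p * (p ^ n - 1 - x / p + x / p + 1) := by ring
          _ = p * p ^ n := by rw [this]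
          _ = p ^ (n + 1) := by ring
      omega
    have h4 : (Nat.digits p x).sum = x % p + (Nat.digits p (x / p)).sum := by
      conv_lhs => rw [← hdm]
      exact ds_add hp _ _ hr
    rw [h2, ds_add hp _ _ (by omega), h4]
    have h5 : (n + 1) * (p - 1) = n * (p - 1) + (p - 1) := by ring
    omega

/-! ### the characters -/

section chars

set_option linter.unusedSectionVars false

variable {p : ℕ} [Fact p.Prime] {K : Type} [Field K] [Fintype K] [DecidableEq K]
  [Algebra (ZMod p) K] {R : Type} [CommRing R] [IsDomain R]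

theorem omega_zero (ρ : R →+* K) (ω : K →* R) (hρω : ∀ x, ρ (ω x) = x) : ω 0 = 0 := by
  have h1 : ω 0 * ω 0 = ω 0 := by rw [← map_mul, mul_zero]
  have h2 : ω 0 * (ω 0 - 1) = 0 := by rw [mul_sub, h1, mul_one, sub_self]
  rcases mul_eq_zero.mp h2 with h | h
  · exact h
  · have h3 : ω 0 = 1 := by linear_combination h
    have h4 := hρω 0
    rw [h3, map_one] at h4
    exact absurd h4 one_ne_zero

/-- the inverse Teichmueller character. -/
noncomputable def chi (ω : K →* R) (h0 : ω 0 = 0) : MulChar K R where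
  toFun x := ω x⁻¹
  map_one' := by simp
  map_mul' x y := by rw [mul_inv, map_mul]
  map_nonunit' x hx := by
    have : x = 0 := by
      by_contra h
      exact hx (isUnit_iff_ne_zero.mpr h)
    simp [this, h0]

theorem chi_apply (ω : K →* R) (h0 : ω 0 = 0) (x : K) : chi ω h0 x = ω x⁻¹ := rfl

theorem chi_pow_eq_one_of (ω : K →* R) (h0 : ω 0 = 0) (k : ℕ) (hk : Fintype.card K - 1 ∣ k)
    (x : K) (hx : x ≠ 0) : (chi ω h0 x) ^ k = 1 := by
  rw [chi_apply, ← map_pow]
  obtain ⟨m, rfl⟩ := hk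
  rw [pow_mul, FiniteField.pow_card_sub_one_eq_one _ (inv_ne_zero hx), one_pow, map_one]

theorem chi_pow_ne_one (ρ : R →+* K) (ω : K →* R) (hρω : ∀ x, ρ (ω x) = x) (h0 : ω 0 = 0) (k : ℕ)
    (hk : ¬ Fintype.card K - 1 ∣ k) : chi ω h0 ^ k ≠ 1 := by
  intro h
  apply hk
  rw [← FiniteField.forall_pow_eq_one_iff K]
  intro x
  have h1 : (chi ω h0 ^ k) ((x⁻¹ : Kˣ) : K) = 1 := by
    rw [h, MulChar.one_apply_coe]
  rw [MulChar.pow_apply_coe, chi_apply] at h1
  have h2 := congrArg ρ h1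
  rw [map_pow, hρω, map_one] at h2
  ext
  push_cast at h2 ⊢
  simpa using h2

variable {ζ : R}

theorem zeta_pow (hs : ∑ i ∈ range p, ζ ^ i = 0) : ζ ^ p = 1 := by
  have h := geom_sum_mul ζ p
  rw [hs, zero_mul] at h
  exact (sub_eq_zero.mp h.symm)

/-- the additive character of `ZMod p` -/
noncomputable def psi0 (hs : ∑ i ∈ range p, ζ ^ i = 0) : AddChar (ZMod p) R :=
  AddChar.zmodChar p (zeta_pow hs)

/-- the additive character of `K` -/
noncomputable def psiKb (K : Type) [Field K] [Algebra (ZMod p) K]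
    (hs : ∑ i ∈ range p, ζ ^ i = 0) : AddChar K R :=
  (psi0 hs).compAddMonoidHom (Algebra.trace (ZMod p) K).toAddMonoidHom

theorem psiKb_apply (hs : ∑ i ∈ range p, ζ ^ i = 0) (x : K) :
    psiKb K hs x = ζ ^ (Algebra.trace (ZMod p) K x).val := rfl

theorem psiKb_apply' (hs : ∑ i ∈ range p, ζ ^ i = 0) (x : K) :
    psiKb K hs x = psi0 hs (Algebra.trace (ZMod p) K x) := rfl

/-- the Gauss sums -/
noncomputable def gs (ω : K →* R) (h0 : ω 0 = 0) (hs : ∑ i ∈ range p, ζ ^ i = 0) (k : ℕ) : R :=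
  gaussSum (chi ω h0 ^ k) (psiKb K hs)

theorem trace_frob (x : K) :
    Algebra.trace (ZMod p) K (x ^ p) = Algebra.trace (ZMod p) K x := by
  have h := Algebra.trace_eq_of_algEquiv (FiniteField.frobeniusAlgEquivOfAlgebraic (ZMod p) K) x
  rw [← h, FiniteField.coe_frobeniusAlgEquivOfAlgebraic]
  simp [ZMod.card]

theorem frob_bij : Function.Bijective (fun x : K => x ^ p) := by
  have h := (FiniteField.frobeniusAlgEquivOfAlgebraic (ZMod p) K).bijective
  rw [FiniteField.coe_frobeniusAlgEquivOfAlgebraic] at h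
  simpa [ZMod.card] using h

theorem gs_frob (ω : K →* R) (h0 : ω 0 = 0) (hs : ∑ i ∈ range p, ζ ^ i = 0) (k : ℕ) (hk : k ≠ 0) :
    gs ω h0 hs (p * k) = gs ω h0 hs k := by
  have hp : p.Prime := Fact.out
  rw [gs, gs, gaussSum, gaussSum]
  rw [← (frob_bij (p := p) (K := K)).sum_comp
    (fun x => (chi ω h0 ^ k) x * (psiKb K hs) x)]
  refine sum_congr rfl fun x _ => ?_
  rw [MulChar.pow_apply' _ hk, MulChar.pow_apply' _ (Nat.mul_ne_zero hp.ne_zero hk), map_pow,
    ← pow_mul, psiKb_apply, psiKb_apply, trace_frob]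

theorem gs_mul (ρ : R →+* K) (ω : K →* R) (hρω : ∀ x, ρ (ω x) = x) (h0 : ω 0 = 0)
    (hs : ∑ i ∈ range p, ζ ^ i = 0) (k l : ℕ) (hkl : ¬ Fintype.card K - 1 ∣ k + l) :
    gs ω h0 hs (k + l) ∣ gs ω h0 hs k * gs ω h0 hs l := by
  have h := jacobiSum_mul_nontrivial (χ := chi ω h0 ^ k) (φ := chi ω h0 ^ l)
    (by rw [← pow_add]; exact chi_pow_ne_one ρ ω hρω h0 _ hkl) (psiKb K hs)
  rw [← pow_add] at h
  exact ⟨_, h.symm⟩

/-- `g(k)` divides `g(1)^(s(k))` -/
theorem gs_dvd (ρ : R →+* K) (ω : K →* R) (hρω : ∀ x, ρ (ω x) = x) (h0 : ω 0 = 0)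
    (hs : ∑ i ∈ range p, ζ ^ i = 0) (k : ℕ) (hk0 : 0 < k) (hk : k < Fintype.card K - 1) :
    gs ω h0 hs k ∣ gs ω h0 hs 1 ^ (Nat.digits p k).sum := by
  have hp : p.Prime := Fact.out
  have hp1 : 1 < p := hp.one_lt
  induction k using Nat.strong_induction_on with
  | _ k ih =>
    have hr : k % p < p := Nat.mod_lt _ (by omega)
    have hdm : k % p + p * (k / p) = k := Nat.mod_add_div k p
    rcases Nat.eq_zero_or_pos (k % p) with hz | hz
    · have hk1 : k = p * (k / p) := by omega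
      have hk1pos : 0 < k / p := by
        rcases Nat.eq_zero_or_pos (k / p) with h | h
        · rw [h] at hk1; omega
        · exact h
      have hlt : k / p < k := Nat.div_lt_self hk0 hp1
      have h1 := ih (k / p) hlt hk1pos (by omega)
      have h2 : (Nat.digits p k).sum = (Nat.digits p (k / p)).sum := by
        have := ds_add hp1 0 (k / p) (by omega)
        rw [zero_add, ← hk1] at this
        rw [this]
        simp
      rw [h2]
      conv_lhs => rw [hk1]
      rw [gs_frob ω h0 hs _ (by omega)]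
      exact h1
    · have h2 : (Nat.digits p k).sum = (Nat.digits p (k - 1)).sum + 1 := by
        have e1 := ds_add hp1 (k % p) (k / p) hr
        have e2 := ds_add hp1 (k % p - 1) (k / p) (by omega)
        rw [hdm] at e1
        have e3 : k % p - 1 + p * (k / p) = k - 1 := by omega
        rw [e3] at e2
        omega
      rcases Nat.eq_zero_or_pos (k - 1) with h3 | h3
      · have hk1 : k = 1 := by omega
        subst hk1
        rw [h2, h3]
        simp
      · have h4 := ih (k - 1) (by omega) h3 (by omega)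
        have h5 := gs_mul ρ ω hρω h0 hs (k - 1) 1 (by
          have : k - 1 + 1 = k := by omega
          rw [this]
          exact fun h => absurd (Nat.le_of_dvd hk0 h) (by omega))
        have h6 : k - 1 + 1 = k := by omega
        rw [h6] at h5
        rw [h2, pow_succ]
        exact h5.trans (mul_dvd_mul_right h4 _)

/-! ### `g(1)` is divisible by `π` exactly once -/

theorem pow_expand (π : R) (t : ℕ) : ∃ z : R, (1 + π) ^ t = 1 + t * π + π ^ 2 * z := by
  induction t with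
  | zero => exact ⟨0, by simp⟩
  | succ t ih =>
    obtain ⟨z, hz⟩ := ih
    refine ⟨z + t + π * z, ?_⟩
    rw [pow_succ, hz]
    push_cast
    ring

theorem sum_units_eq {M : Type} [AddCommMonoid M] (f : K → M) (h0 : f 0 = 0) :
    ∑ x : K, f x = ∑ x : Kˣ, f x := by
  symm
  refine Finset.sum_of_injOn (fun u : Kˣ => (u : K)) Units.val_injective.injOn
    (by simp) ?_ (by simp)
  intro x _ hx
  by_cases h : x = 0
  · rw [h, h0]
  · exact absurd ⟨Units.mk0 x h, by simp, rfl⟩ hx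

theorem card_sub_one_dvd {n : ℕ} (hp : 3 < p) (hq : Fintype.card K = p ^ n) (i : ℕ) (hi : i < n) :
    Fintype.card K - 1 ∣ p ^ i - 1 ↔ i = 0 := by
  constructor
  · intro h
    by_contra h0
    have h1 : 1 < p ^ i := Nat.one_lt_pow h0 (by omega)
    have h2 : p ^ i < p ^ n := Nat.pow_lt_pow_right (by omega) hi
    have h3 := Nat.le_of_dvd (by omega) h
    rw [hq] at h3
    omega
  · rintro rfl
    simp

theorem sum_inv_trace {n : ℕ} (hp : 3 < p) (hn : 0 < n) (hq : Fintype.card K = p ^ n) :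
    ∑ x : K, x⁻¹ * algebraMap (ZMod p) K (Algebra.trace (ZMod p) K x) = -1 := by
  have hp' : p.Prime := Fact.out
  have hfin : Module.finrank (ZMod p) K = n := by
    have h := Module.card_eq_pow_finrank (K := ZMod p) (V := K)
    rw [hq, ZMod.card] at h
    exact (Nat.pow_right_injective hp'.two_le h).symm
  have h1 : ∀ x : K, x⁻¹ * algebraMap (ZMod p) K (Algebra.trace (ZMod p) K x)
      = ∑ i ∈ range n, x⁻¹ * x ^ (p ^ i) := by
    intro x
    rw [FiniteField.algebraMap_trace_eq_sum_pow, hfin, mul_sum]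
    simp
  simp only [h1]
  rw [sum_comm]
  have h2 : ∀ i ∈ range n, ∑ x : K, x⁻¹ * x ^ (p ^ i) = if i = 0 then -1 else 0 := by
    intro i hi
    rw [sum_units_eq _ (by simp)]
    have h3 := FiniteField.sum_pow_units K (p ^ i - 1)
    have h4 := card_sub_one_dvd (K := K) hp hq i (mem_range.mp hi)
    rw [← h3.trans (if_congr h4 rfl rfl)]
    refine sum_congr rfl fun x _ => ?_
    have h5 : p ^ i = p ^ i - 1 + 1 := by
      have := Nat.pow_pos (n := i) (show 0 < p by omega)
      omega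
    have hx : (x : K) ≠ 0 := x.ne_zero
    conv_lhs => rw [h5, pow_succ]
    field_simp
  rw [sum_congr rfl h2, sum_ite_eq' (range n) 0 (fun _ => (-1 : K))]
  simp [hn]

theorem gs_one {n : ℕ} (hp : 3 < p) (hn : 0 < n) (hq : Fintype.card K = p ^ n)
    (ρ : R →+* K) (ω : K →* R) (hρω : ∀ x, ρ (ω x) = x) (h0 : ω 0 = 0) (hζ : ρ ζ = 1)
    (hs : ∑ i ∈ range p, ζ ^ i = 0) :
    ∃ y : R, gs ω h0 hs 1 = (ζ - 1) * y ∧ ρ y = -1 := by
  have hexp := fun t : ℕ => pow_expand (ζ - 1) t
  choose z hz using hexp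
  simp only [add_sub_cancel] at hz
  have hq5 : 3 < Fintype.card K := by
    rw [hq]
    calc 3 < p := hp
      _ = p ^ 1 := (pow_one p).symm
      _ ≤ p ^ n := Nat.pow_le_pow_right (by omega) hn
  have hne : chi ω h0 ≠ 1 := by
    have h := chi_pow_ne_one ρ ω hρω h0 1 (by
      intro h
      have := Nat.le_of_dvd one_pos h
      omega)
    rwa [pow_one] at h
  set t : K → ℕ := fun x => (Algebra.trace (ZMod p) K x).val with ht
  refine ⟨∑ x : K, chi ω h0 x * (t x : R) + (ζ - 1) * ∑ x : K, chi ω h0 x * z (t x), ?_, ?_⟩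
  · rw [gs, gaussSum, pow_one]
    have h1 : ∀ x : K, chi ω h0 x * (psiKb K hs) x
        = chi ω h0 x + (ζ - 1) * (chi ω h0 x * (t x : R))
          + (ζ - 1) * ((ζ - 1) * (chi ω h0 x * z (t x))) := by
      intro x
      rw [psiKb_apply, hz]
      ring
    rw [sum_congr rfl fun x _ => h1 x, sum_add_distrib, sum_add_distrib, ← mul_sum, ← mul_sum,
      ← mul_sum, MulChar.sum_eq_zero_of_ne_one hne]
    ring
  · rw [map_add, map_mul, map_sub, hζ, map_one, sub_self, zero_mul, add_zero, map_sum,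
      ← sum_inv_trace (K := K) hp hn hq]
    refine sum_congr rfl fun x _ => ?_
    rw [map_mul, chi_apply, hρω, map_natCast, ht]
    congr 1
    have : algebraMap (ZMod p) K (((Algebra.trace (ZMod p) K x).val : ℕ) : ZMod p)
        = algebraMap (ZMod p) K (Algebra.trace (ZMod p) K x) := by
      rw [ZMod.natCast_zmod_val]
    rw [← this, map_natCast]

/-! ### `π^(p-1) = -p (1 + π r)` -/

theorem pi_pow [CharZero R] (hs : ∑ i ∈ range p, ζ ^ i = 0) :
    ∃ r : R, (ζ - 1) ^ (p - 1) = -(p * (1 + (ζ - 1) * r)) := by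
  have hp' : p.Prime := Fact.out
  have hne : ζ - 1 ≠ 0 := by
    intro h
    have h1 : ζ = 1 := sub_eq_zero.mp h
    rw [h1] at hs
    simp at hs
    exact hp'.ne_zero (by exact_mod_cast hs)
  have h1 : (1 + (ζ - 1)) ^ p = 1 := by
    rw [add_sub_cancel]
    exact zeta_pow hs
  obtain ⟨m, hm⟩ : ∃ m, p = m + 2 := ⟨p - 2, by have := hp'.two_le; omega⟩
  rw [add_comm, add_pow, sum_range_succ'] at h1
  simp only [one_pow, mul_one, pow_zero, Nat.choose_zero_right, Nat.cast_one] at h1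
  have h2 : (ζ - 1) * ∑ k ∈ range p, (ζ - 1) ^ k * ((p.choose (k + 1) : ℕ) : R) = 0 := by
    rw [mul_sum]
    have h3 : ∑ k ∈ range p, (ζ - 1) * ((ζ - 1) ^ k * ((p.choose (k + 1) : ℕ) : R))
        = ∑ k ∈ range p, (ζ - 1) ^ (k + 1) * ((p.choose (k + 1) : ℕ) : R) :=
      sum_congr rfl fun k _ => by ring
    rw [h3]
    linear_combination h1
  have h4 := (mul_eq_zero.mp h2).resolve_left hne
  have hdvd : ∀ k, ∃ c : ℕ, k < m → p.choose (k + 2) = p * c := by
    intro k
    by_cases hk : k < m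
    · obtain ⟨c, hc⟩ := hp'.dvd_choose_self (k := k + 2) (by omega) (by omega)
      exact ⟨c, fun _ => hc⟩
    · exact ⟨0, fun h => absurd h hk⟩
  choose c hc using hdvd
  refine ⟨∑ k ∈ range m, (ζ - 1) ^ k * (c k : R), ?_⟩
  have h5 : ∑ k ∈ range p, (ζ - 1) ^ k * ((p.choose (k + 1) : ℕ) : R)
      = ∑ k ∈ range m, (ζ - 1) ^ (k + 1) * ((p.choose (k + 2) : ℕ) : R) + p
        + (ζ - 1) ^ (p - 1) := by
    have e1 : range p = range (m + 1 + 1) := by rw [hm]
    rw [e1, sum_range_succ, sum_range_succ']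
    have e2 : m + 1 = p - 1 := by omega
    have e3 : p.choose (m + 1 + 1) = 1 := by rw [show m + 1 + 1 = p by omega, Nat.choose_self]
    rw [e3, e2]
    simp
  have h6 : ∑ k ∈ range m, (ζ - 1) ^ (k + 1) * ((p.choose (k + 2) : ℕ) : R)
      = p * ((ζ - 1) * ∑ k ∈ range m, (ζ - 1) ^ k * (c k : R)) := by
    rw [mul_sum, mul_sum]
    refine sum_congr rfl fun k hk => ?_
    rw [hc k (mem_range.mp hk)]
    push_cast
    ring
  rw [h5, h6] at h4
  linear_combination h4

/-! ### the Weil sum in `R` -/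

theorem pow_eq_self {d : ℕ} (hp : 3 < p) (hd1 : d ≡ 1 [MOD p - 1]) (c : ZMod p) : c ^ d = c := by
  have hp' : p.Prime := Fact.out
  have hd0 : d ≠ 0 := by
    rintro rfl
    have h : (p - 1) ∣ 1 := (Nat.modEq_iff_dvd' (by norm_num)).mp hd1
    have := Nat.le_of_dvd one_pos h
    omega
  by_cases hc : c = 0
  · rw [hc, zero_pow hd0]
  · obtain ⟨m, hm⟩ : (p - 1) ∣ d - 1 := (Nat.modEq_iff_dvd' (by omega)).mp hd1.symm
    have hd : d = (p - 1) * m + 1 := by omega
    rw [hd, pow_succ, pow_mul, ZMod.pow_card_sub_one_eq_one hc, one_pow, one_mul]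

theorem T_smul {d : ℕ} (hp : 3 < p) (hd1 : d ≡ 1 [MOD p - 1]) (a x : K) (c : ZMod p) :
    T p d a (algebraMap (ZMod p) K c * x) = c * T p d a x := by
  rw [T, T]
  have h1 : a * (algebraMap (ZMod p) K c * x) - (algebraMap (ZMod p) K c * x) ^ d
      = c • (a * x - x ^ d) := by
    rw [mul_pow, ← map_pow, pow_eq_self hp hd1, Algebra.smul_def]
    ring
  rw [h1, map_smul, smul_eq_mul]

theorem cnt_eq {d : ℕ} (hp : 3 < p) (hd1 : d ≡ 1 [MOD p - 1]) (a : K) (c : ZMod p) (hc : c ≠ 0) :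
    cnt p d a c = cnt p d a 1 := by
  symm
  have hc' : algebraMap (ZMod p) K c ≠ 0 := by
    simpa using hc
  refine Finset.card_bij (fun x _ => algebraMap (ZMod p) K c * x) ?_ ?_ ?_
  · intro x hx
    simp only [mem_filter, mem_univ, true_and] at hx ⊢
    rw [T_smul hp hd1, hx, mul_one]
  · intro x _ y _ h
    exact mul_left_cancel₀ hc' h
  · intro y hy
    simp only [mem_filter, mem_univ, true_and] at hy
    refine ⟨algebraMap (ZMod p) K c⁻¹ * y, ?_, ?_⟩
    · simp only [mem_filter, mem_univ, true_and]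
      rw [T_smul hp hd1, hy, inv_mul_cancel₀ hc]
    · rw [← mul_assoc, ← map_mul, mul_inv_cancel₀ hc, map_one, one_mul]

theorem sum_psi0 (hs : ∑ i ∈ range p, ζ ^ i = 0) : ∑ c : ZMod p, psi0 hs c = 0 := by
  have hp' : p.Prime := Fact.out
  rw [← hs]
  refine Finset.sum_bij (fun c _ => c.val) ?_ ?_ ?_ ?_
  · intro c _
    exact mem_range.mpr (ZMod.val_lt c)
  · intro a _ b _ h
    exact ZMod.val_injective p h
  · intro i hi
    exact ⟨(i : ZMod p), mem_univ _, ZMod.val_natCast_of_lt (mem_range.mp hi)⟩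
  · intro c _
    rfl

theorem W_psi0 {d : ℕ} (hp : 3 < p) (hd1 : d ≡ 1 [MOD p - 1])
    (hs : ∑ i ∈ range p, ζ ^ i = 0) (a : K) :
    W p (psi0 hs) d a = ((w p d a : ℤ) : R) := by
  rw [W, w]
  have h1 : ∑ x : K, psi0 hs (T p d a x) = ∑ c : ZMod p, (cnt p d a c : R) * psi0 hs c := by
    rw [← Finset.sum_fiberwise_of_maps_to (s := univ) (t := univ) (g := fun x => T p d a x)
      (fun _ _ => mem_univ _)]
    refine sum_congr rfl fun c _ => ?_
    rw [sum_congr rfl (g := fun _ => psi0 hs c) (fun x hx => by rw [(mem_filter.mp hx).2]),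
      sum_const, nsmul_eq_mul, cnt]
  rw [h1]
  have h2 : ∀ c : ZMod p, (cnt p d a c : R) * psi0 hs c
      = (cnt p d a 1 : R) * psi0 hs c
        + if c = 0 then ((cnt p d a 0 : R) - cnt p d a 1) else 0 := by
    intro c
    by_cases hc : c = 0
    · subst hc
      simp
    · rw [cnt_eq hp hd1 a c hc, if_neg hc, add_zero]
  rw [sum_congr rfl fun c _ => h2 c, sum_add_distrib, ← mul_sum, sum_psi0, mul_zero, zero_add]
  simp

/-! ### the exchange -/

theorem pow_bijb {n d : ℕ} (hq : Fintype.card K = p ^ n) (hd : Nat.Coprime d (p ^ n - 1))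
    (hd0 : d ≠ 0) : Function.Bijective (fun x : K => x ^ d) := by
  rw [← Finite.injective_iff_bijective]
  have hcop : (Nat.card Kˣ).Coprime d := by
    rw [Nat.card_units, Nat.card_eq_fintype_card, hq]
    exact hd.symm
  intro x y hxy
  simp only at hxy
  by_cases hx : x = 0
  · subst hx
    rw [zero_pow hd0] at hxy
    exact (pow_eq_zero_iff hd0).mp hxy.symm |>.symm
  · have hy : y ≠ 0 := by
      rintro rfl
      rw [zero_pow hd0] at hxy
      exact hx ((pow_eq_zero_iff hd0).mp hxy)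
    have h1 : (powCoprime hcop) (Units.mk0 x hx) = (powCoprime hcop) (Units.mk0 y hy) := by
      ext
      simpa [powCoprime] using hxy
    have h2 := (powCoprime hcop).injective h1
    simpa using congrArg Units.val h2

theorem exchange {n d : ℕ} (ρ : R →+* K) (ω : K →* R) (hρω : ∀ x, ρ (ω x) = x) (h0 : ω 0 = 0)
    (hs : ∑ i ∈ range p, ζ ^ i = 0) (hq : Fintype.card K = p ^ n)
    (hd : Nat.Coprime d (p ^ n - 1)) (hd0 : d ≠ 0) (l k : ℕ) (hl : l ≠ 0) (hk0 : k ≠ 0)
    (hk : ¬ Fintype.card K - 1 ∣ k) (hkl : Fintype.card K - 1 ∣ d * l + k) :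
    ∑ a : K, W p (psi0 hs) d a * (chi ω h0 ^ k) a
      = (chi ω h0 ^ l) (-1) * gs ω h0 hs l * gs ω h0 hs k := by
  have hkne := chi_pow_ne_one ρ ω hρω h0 k hk
  have e1 : ∀ a : K, W p (psi0 hs) d a * (chi ω h0 ^ k) a
      = ∑ x : K, psiKb K hs (-(x ^ d)) * ((chi ω h0 ^ k) a * psiKb K hs (x * a)) := by
    intro a
    rw [W, sum_mul]
    refine sum_congr rfl fun x _ => ?_
    have : psi0 hs (T p d a x) = psiKb K hs (-(x ^ d)) * psiKb K hs (x * a) := by
      rw [← AddChar.map_add_eq_mul, psiKb_apply', T]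
      congr 2
      ring
    rw [this]
    ring
  rw [sum_congr rfl fun a _ => e1 a, sum_comm]
  have e2 : ∀ x : K, ∑ a : K, psiKb K hs (-(x ^ d)) * ((chi ω h0 ^ k) a * psiKb K hs (x * a))
      = psiKb K hs (-(x ^ d)) * (chi ω h0 ^ l) (x ^ d) * gs ω h0 hs k := by
    intro x
    rw [← mul_sum, mul_assoc]
    congr 1
    by_cases hx : x = 0
    · subst hx
      rw [zero_pow hd0, MulChar.map_zero, zero_mul]
      simp only [zero_mul, AddChar.map_zero_eq_one, mul_one]
      exact MulChar.sum_eq_zero_of_ne_one hkne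
    · have h1 := gaussSum_mulShift (chi ω h0 ^ k) (psiKb K hs) (Units.mk0 x hx)
      rw [gs, ← h1, ← mul_assoc, Units.val_mk0]
      have h2 : (chi ω h0 ^ l) (x ^ d) * (chi ω h0 ^ k) x = 1 := by
        rw [MulChar.pow_apply' _ hl, MulChar.pow_apply' _ hk0, map_pow, ← pow_mul, ← pow_add]
        exact chi_pow_eq_one_of ω h0 _ hkl x hx
      rw [h2, one_mul, gaussSum]
      refine sum_congr rfl fun a _ => ?_
      rw [AddChar.mulShift_apply]
  rw [sum_congr rfl fun x _ => e2 x, ← sum_mul]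
  congr 1
  have e3 := (pow_bijb (K := K) hq hd hd0).sum_comp
    (fun y => psiKb K hs (-y) * (chi ω h0 ^ l) y)
  rw [e3]
  have e4 := Equiv.sum_comp (Equiv.neg K) (fun y => psiKb K hs (-y) * (chi ω h0 ^ l) y)
  rw [← e4, gs, gaussSum, mul_sum]
  refine sum_congr rfl fun y _ => ?_
  simp only [Equiv.neg_apply, neg_neg]
  have : (-y) = (-1) * y := by ring
  rw [this, map_mul]
  ring

/-- `p^L` divides the product of two Gauss sums. -/
theorem gs_gs {n d L : ℕ} (hp : 3 < p) (ρ : R →+* K) (ω : K →* R) (hρω : ∀ x, ρ (ω x) = x)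
    (h0 : ω 0 = 0) (hs : ∑ i ∈ range p, ζ ^ i = 0) (hq : Fintype.card K = p ^ n)
    (hd : Nat.Coprime d (p ^ n - 1)) (hd0 : d ≠ 0) (hd1 : d ≡ 1 [MOD p - 1])
    (hL : ∀ a : K, (p : ℤ) ^ L ∣ w p d a) (l k : ℕ) (hl : l ≠ 0) (hk0 : k ≠ 0)
    (hk : ¬ Fintype.card K - 1 ∣ k) (hkl : Fintype.card K - 1 ∣ d * l + k) :
    (p : R) ^ L ∣ gs ω h0 hs l * gs ω h0 hs k := by
  have h1 := exchange ρ ω hρω h0 hs hq hd hd0 l k hl hk0 hk hkl
  have h2 : (p : R) ^ L ∣ ∑ a : K, W p (psi0 hs) d a * (chi ω h0 ^ k) a := by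
    refine dvd_sum fun a _ => Dvd.dvd.mul_right ?_ _
    rw [W_psi0 hp hd1]
    have := map_dvd (Int.castRingHom R) (hL a)
    simpa using this
  rw [h1] at h2
  have h3 : (chi ω h0 ^ l) (-1) * (chi ω h0 ^ l) (-1) = 1 := by
    rw [← map_mul]
    simp
  have h4 : gs ω h0 hs l * gs ω h0 hs k
      = (chi ω h0 ^ l) (-1) * ((chi ω h0 ^ l) (-1) * gs ω h0 hs l * gs ω h0 hs k) := by
    linear_combination (- gs ω h0 hs l * gs ω h0 hs k) * h3
  rw [h4]
  exact Dvd.dvd.mul_left h2 _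

end chars

/-- ws:M6b -/
theorem digit_sum {p n d L : ℕ} [Fact p.Prime] {K : Type} [Field K] [Fintype K] [DecidableEq K]
    [Algebra (ZMod p) K] (hp : 3 < p) (hn : 0 < n) (hq : Fintype.card K = p ^ n)
    (hd : Nat.Coprime d (p ^ n - 1)) (hd1 : d ≡ 1 [MOD p - 1])
    (hL : ∀ a : K, (p : ℤ) ^ L ∣ w p d a) (j : ℕ) (hj : 1 ≤ j) (hj' : j ≤ p ^ n - 2) :
    (Nat.digits p ((d * j) % (p ^ n - 1))).sum + L * (p - 1) ≤
      (Nat.digits p j).sum + n * (p - 1) := by
  have hp' : p.Prime := Fact.out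
  obtain ⟨R, _, _, _, ζ, ρ, ω, hρω, hζ, hs⟩ := exists_teich p K
  have h0 : ω 0 = 0 := omega_zero ρ ω hρω
  have hq1 : p ≤ p ^ n := by
    calc p = p ^ 1 := (pow_one p).symm
      _ ≤ p ^ n := Nat.pow_le_pow_right (by omega) hn
  have hd0 : d ≠ 0 := by
    rintro rfl
    have h : (p - 1) ∣ 1 := (Nat.modEq_iff_dvd' (by norm_num)).mp hd1
    have := Nat.le_of_dvd one_pos h
    omega
  set x := (d * j) % (p ^ n - 1) with hx
  have hxlt : x < p ^ n - 1 := Nat.mod_lt _ (by omega)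
  have hx0 : x ≠ 0 := by
    intro h
    have h1 : (p ^ n - 1) ∣ d * j := Nat.dvd_of_mod_eq_zero h
    have h2 : (p ^ n - 1) ∣ j := Nat.Coprime.dvd_of_dvd_mul_left hd.symm h1
    have := Nat.le_of_dvd (by omega) h2
    omega
  set k := p ^ n - 1 - x with hk
  have hkpos : 0 < k := by omega
  have hklt : k < p ^ n - 1 := by omega
  have hkn : ¬ Fintype.card K - 1 ∣ k := by
    rw [hq]
    intro h
    have := Nat.le_of_dvd hkpos h
    omega
  have hkl : Fintype.card K - 1 ∣ d * j + k := by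
    rw [hq]
    have h1 : (p ^ n - 1) * ((d * j) / (p ^ n - 1)) + x = d * j := Nat.div_add_mod _ _
    refine ⟨(d * j) / (p ^ n - 1) + 1, ?_⟩
    rw [mul_add, mul_one]
    omega
  have hG := gs_gs hp ρ ω hρω h0 hs hq hd hd0 hd1 hL j k (by omega) (by omega) hkn hkl
  have hgj := gs_dvd ρ ω hρω h0 hs j (by omega) (by rw [hq]; omega)
  have hgk := gs_dvd ρ ω hρω h0 hs k hkpos (by rw [hq]; omega)
  have hG2 := hG.trans (mul_dvd_mul hgj hgk)
  rw [← pow_add] at hG2
  obtain ⟨y, hy, hρy⟩ := gs_one hp hn hq ρ ω hρω h0 hζ hs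
  obtain ⟨r, hr⟩ := pi_pow hs
  obtain ⟨t, ht⟩ := hG2
  set s := (Nat.digits p j).sum + (Nat.digits p k).sum with hsdef
  -- main inequality
  have hmain : L * (p - 1) ≤ s := by
    by_contra hlt
    push Not at hlt
    have hπ : ζ - 1 ≠ 0 := by
      intro h
      have h1 : ζ = 1 := sub_eq_zero.mp h
      rw [h1] at hs
      simp at hs
      exact hp'.ne_zero (by exact_mod_cast hs)
    rw [hy, mul_pow] at ht
    have h1 : (ζ - 1) ^ (L * (p - 1)) * t
        = (-(1 + (ζ - 1) * r)) ^ L * ((ζ - 1) ^ s * y ^ s) := by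
      rw [ht, mul_comm L (p - 1), pow_mul, hr]
      have : -((p : R) * (1 + (ζ - 1) * r)) = (p : R) * (-(1 + (ζ - 1) * r)) := by ring
      rw [this, mul_pow]
      ring
    obtain ⟨m, hm⟩ : ∃ m, L * (p - 1) = s + (m + 1) := ⟨L * (p - 1) - s - 1, by omega⟩
    rw [hm, pow_add] at h1
    have h2 : (ζ - 1) ^ s * ((ζ - 1) ^ (m + 1) * t)
        = (ζ - 1) ^ s * ((-(1 + (ζ - 1) * r)) ^ L * y ^ s) := by
      linear_combination h1
    have h3 := mul_left_cancel₀ (pow_ne_zero s hπ) h2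
    have h4 := congrArg ρ h3
    have h5 : ρ (ζ - 1) = 0 := by rw [map_sub, hζ, map_one, sub_self]
    rw [map_mul, map_pow, h5, map_mul, map_pow, map_pow, map_neg, map_add, map_one, map_mul, h5,
      hρy] at h4
    simp at h4
  have hc := ds_compl hp'.one_lt n x (by omega)
  rw [← hk] at hc
  omega

end Pool.Agent.helper75.MS
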