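import Pool.Agent.helper31.MS.M4
import Pool.Agent.helper36.MS.M2a
import Pool.Agent.helper58.MS.M1c
import Pool.Agent.helper58.MS.M3

/-! from three values to the structure `Vals` -/

namespace Pool.Agent.helper75.MS

open Finset

section
variable {p : ℕ} [Fact p.Prime] {K : Type} [Field K] [Fintype K] [DecidableEq K]
  [Algebra (ZMod p) K]

/-- the sum of the problem -/
noncomputable def FF (p : ℕ) [Fact p.Prime] {K : Type} [Field K] [Fintype K] [DecidableEq K]
    [Algebra (ZMod p) K] (d : ℕ) (c : Kˣ) : ℂ :=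
  ∑ x : Kˣ, Complex.exp (2 * (Real.pi : ℂ) * Complex.I *
    (((Algebra.trace (ZMod p) K ((c : K) * (x : K) - (x : K) ^ d)).val : ℕ) : ℂ) / (p : ℂ))

theorem sum_units {M : Type} [AddCommMonoid M] (f : K → M) :
    ∑ x : K, f x = f 0 + ∑ x : Kˣ, f (x : K) := by
  classical
  rw [← Finset.add_sum_erase univ f (mem_univ 0)]
  congr 1
  refine (Finset.sum_nbij' (fun x : Kˣ => (x : K)) (fun x : K => if h : x = 0 then 1 else Units.mk0 x h)
    ?_ ?_ ?_ ?_ ?_).symm
  · intro x _; simp
  · intro x _; simp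
  · intro x _; simp
  · intro x hx
    have hx0 : x ≠ 0 := by simpa using hx
    simp [hx0]
  · intro x _; rfl

theorem FF_eq {d : ℕ} (hd : d ≠ 0) (c : Kˣ) :
    W p (ZMod.stdAddChar (N := p)) d (c : K) = 1 + FF p d c := by
  unfold W FF
  rw [sum_units]
  congr 1
  · unfold T
    rw [mul_zero, zero_pow hd, sub_zero, map_zero, AddChar.map_zero_eq_one]
  · apply Finset.sum_congr rfl
    intro x _
    unfold T
    generalize Algebra.trace (ZMod p) K ((c : K) * (x : K) - (x : K) ^ d) = t
    have h : ((t.val : ℤ) : ZMod p) = t := by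
      rw [Int.cast_natCast, ZMod.natCast_val, ZMod.cast_id]
    conv_lhs => rw [← h, ZMod.stdAddChar_coe]
    push_cast
    rfl

theorem sum_three {f : K → ℤ} {A B C : ℤ} (hA : A ≠ 0) (hB : B ≠ 0) (hC : C ≠ 0) (hAB : A ≠ B)
    (hAC : A ≠ C) (hBC : B ≠ C) (h : ∀ a, f a = 0 ∨ f a = A ∨ f a = B ∨ f a = C) (g : ℤ → ℤ)
    (hg : g 0 = 0) :
    ∑ a : K, g (f a) = ((univ.filter fun a => f a = A).card : ℤ) * g A +
      ((univ.filter fun a => f a = B).card : ℤ) * g B +
      ((univ.filter fun a => f a = C).card : ℤ) * g C := by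
  have e : ∀ a, g (f a) = (if f a = A then g A else 0) + (if f a = B then g B else 0) +
      (if f a = C then g C else 0) := by
    intro a
    rcases h a with h | h | h | h
    · rw [h, if_neg hA.symm, if_neg hB.symm, if_neg hC.symm, hg]; simp
    · rw [h, if_pos rfl, if_neg hAB, if_neg hAC]; simp
    · rw [h, if_neg hAB.symm, if_pos rfl, if_neg hBC]; simp
    · rw [h, if_neg hAC.symm, if_neg hBC.symm, if_pos rfl]; simp
  rw [Finset.sum_congr rfl fun a _ => e a]
  simp only [Finset.sum_add_distrib, ← Finset.sum_filter, Finset.sum_const, nsmul_eq_mul]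

theorem sum_two {f : K → ℤ} {A B : ℤ} (hA : A ≠ 0) (hB : B ≠ 0) (hAB : A ≠ B)
    (h : ∀ a, f a = 0 ∨ f a = A ∨ f a = B) (g : ℤ → ℤ) (hg : g 0 = 0) :
    ∑ a : K, g (f a) = ((univ.filter fun a => f a = A).card : ℤ) * g A +
      ((univ.filter fun a => f a = B).card : ℤ) * g B := by
  have e : ∀ a, g (f a) = (if f a = A then g A else 0) + (if f a = B then g B else 0) := by
    intro a
    rcases h a with h | h | h
    · rw [h, if_neg hA.symm, if_neg hB.symm, hg]; simp
    · rw [h, if_pos rfl, if_neg hAB]; simp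
    · rw [h, if_neg hAB.symm, if_pos rfl]; simp
  rw [Finset.sum_congr rfl fun a _ => e a]
  simp only [Finset.sum_add_distrib, ← Finset.sum_filter, Finset.sum_const, nsmul_eq_mul]

/-- `Vals` for the Weil sums -/
theorem vals_aux {d n : ℕ} (hp : 3 < p) (hq : Fintype.card K = p ^ n) (hn : 0 < n)
    (hd : Nat.Coprime d (p ^ n - 1)) (hd1 : d ≡ 1 [MOD p - 1]) {A B : ℤ} (hA : 0 < A) (hB : B < 0)
    (hv : ∀ a : K, w p d a = 0 ∨ w p d a = A ∨ w p d a = B)
    (hA1 : ∃ a : K, w p d a = A) (hB1 : ∃ a : K, w p d a = B) :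
    Vals p n A B (univ.filter fun a : K => w p d a = A).card
      (univ.filter fun a : K => w p d a = B).card (V d (1 : K)) := by
  have hAB : A ≠ B := by omega
  have hpZ : (p : ℤ) ^ n ≠ 0 := pow_ne_zero _ (by have : 0 < p := by omega
                                                  exact_mod_cast this.ne')
  have s1 := sum_two hA.ne' hB.ne hAB hv (fun x => x) rfl
  have s2 := sum_two hA.ne' hB.ne hAB hv (fun x => x ^ 2) (by norm_num)
  have s3 := sum_two hA.ne' hB.ne hAB hv (fun x => x ^ 3) (by norm_num)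
  have s4 := sum_two hA.ne' hB.ne hAB hv (fun x => x ^ 4) (by norm_num)
  have m1 := w_sum (K := K) hp hq hn hd hd1
  have m2 := w_sq (K := K) hp hq hn hd hd1 1 one_ne_zero
  have m3 := w_cube (K := K) hp hq hn hd hd1 1 one_ne_zero
  have m4 := V_sq_sum (K := K) hp hq hn hd hd1
  simp only [one_mul, if_true] at m2 m3
  have m2' : ∑ a : K, w p d a ^ 2 = (p : ℤ) ^ (2 * n) := by
    rw [← m2]; exact Finset.sum_congr rfl fun _ _ => by ring
  have m3' : ∑ a : K, w p d a ^ 3 = (p : ℤ) ^ (2 * n) * V d (1 : K) := by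
    rw [← m3]; exact Finset.sum_congr rfl fun _ _ => by ring
  rw [s1] at m1
  rw [s2] at m2'
  rw [s3] at m3'
  rw [s4] at m4
  set NA := (univ.filter fun a : K => w p d a = A).card with hNA
  set NB := (univ.filter fun a : K => w p d a = B).card with hNB
  have e2n : (p : ℤ) ^ (2 * n) = (p : ℤ) ^ n * (p : ℤ) ^ n := by rw [two_mul, pow_add]
  refine ⟨Fact.out, hp, hn, hA, hB, ?_, ?_, V_one_ge hp hd1, m1, m2', ?_, ?_⟩
  · obtain ⟨a, ha⟩ := hA1
    exact Finset.card_pos.2 ⟨a, by simp [ha]⟩
  · obtain ⟨a, ha⟩ := hB1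
    exact Finset.card_pos.2 ⟨a, by simp [ha]⟩
  · have h1 : (p : ℤ) ^ n * ((p : ℤ) ^ n * V d (1 : K)) =
        (p : ℤ) ^ n * ((A + B) * (p : ℤ) ^ n - A * B) := by
      have h2 : (p : ℤ) ^ n * ((p : ℤ) ^ n * V d (1 : K)) = (NA : ℤ) * A ^ 3 + (NB : ℤ) * B ^ 3 := by
        rw [m3', e2n]; ring
      rw [h2, show (NA : ℤ) * A ^ 3 + (NB : ℤ) * B ^ 3 = (A + B) * ((NA : ℤ) * A ^ 2 +
        (NB : ℤ) * B ^ 2) - A * B * ((NA : ℤ) * A + (NB : ℤ) * B) by ring, m1, m2', e2n]
      ring
    exact mul_left_cancel₀ hpZ h1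
  · refine ⟨K, (univ.erase 0).erase 1, V d, ?_, ?_, ?_⟩
    · intro l hl
      have hl1 : l ≠ 1 := (Finset.mem_erase.1 hl).1
      have hl0 : l ≠ 0 := (Finset.mem_erase.1 (Finset.mem_erase.1 hl).2).1
      have c2 := w_sq (K := K) hp hq hn hd hd1 l hl0
      have c3 := w_cube (K := K) hp hq hn hd hd1 l hl0
      rw [if_neg hl1] at c2
      constructor
      · rw [← c3]
        have : ∑ a : K, w p d a ^ 2 * w p d (l * a) =
            ∑ a : K, (w p d a * (w p d a - B)) * w p d (l * a) := by
          have : ∑ a : K, (w p d a * (w p d a - B)) * w p d (l * a) =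
              ∑ a : K, w p d a ^ 2 * w p d (l * a) - B * ∑ a : K, w p d a * w p d (l * a) := by
            rw [Finset.mul_sum, ← Finset.sum_sub_distrib]
            exact Finset.sum_congr rfl fun _ _ => by ring
          rw [this, c2]; ring
        rw [this]
        apply Finset.dvd_sum
        intro a _
        rcases hv a with h | h | h
        · rw [h]; simp
        · rw [h]; exact dvd_mul_right _ _
        · rw [h]; simp
      · rw [← c3]
        have : ∑ a : K, w p d a ^ 2 * w p d (l * a) =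
            ∑ a : K, (w p d a * (w p d a - A)) * w p d (l * a) := by
          have : ∑ a : K, (w p d a * (w p d a - A)) * w p d (l * a) =
              ∑ a : K, w p d a ^ 2 * w p d (l * a) - A * ∑ a : K, w p d a * w p d (l * a) := by
            rw [Finset.mul_sum, ← Finset.sum_sub_distrib]
            exact Finset.sum_congr rfl fun _ _ => by ring
          rw [this, c2]; ring
        rw [this]
        apply Finset.dvd_sum
        intro a _
        rcases hv a with h | h | h
        · rw [h]; simp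
        · rw [h]; simp
        · rw [h]; exact dvd_mul_right _ _
    · have h1 := V_sum (K := K) hp hq hn hd
      rw [← Finset.add_sum_erase _ _ (Finset.mem_erase.2 ⟨one_ne_zero, mem_univ (1 : K)⟩)] at h1
      have h2 : ((V d (1 : K) + ∑ l ∈ (univ.erase (0 : K)).erase 1, V d l : ℕ) : ℤ) =
        ((p ^ n : ℕ) : ℤ) := by rw [h1]
      push_cast at h2
      linarith
    · rw [← m4, ← Finset.add_sum_erase (univ.erase (0 : K)) (fun l => (V d l : ℤ) ^ 2)
        (Finset.mem_erase.2 ⟨one_ne_zero, mem_univ (1 : K)⟩)]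

theorem card_filter_three {f : K → ℤ} {A B C : ℤ} (hA : A ≠ 0) (hB : B ≠ 0) (hC : C ≠ 0)
    (hAB : A ≠ B) (hAC : A ≠ C) (hBC : B ≠ C) (h : ∀ a, a ≠ 0 → f a = A ∨ f a = B ∨ f a = C)
    (h0 : f 0 = 0) :
    ((univ.filter fun a => f a = A).card : ℤ) + ((univ.filter fun a => f a = B).card : ℤ) +
      ((univ.filter fun a => f a = C).card : ℤ) = (Fintype.card K : ℤ) - 1 := by
  have h' : ∀ a, f a = 0 ∨ f a = A ∨ f a = B ∨ f a = C := by
    intro a
    by_cases ha : a = 0
    · exact Or.inl (by rw [ha, h0])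
    · exact Or.inr (h a ha)
  have := sum_three hA hB hC hAB hAC hBC h' (fun x => if x = 0 then 0 else 1) (by simp)
  simp only [if_neg hA, if_neg hB, if_neg hC, mul_one] at this
  rw [← this]
  have h1 : ∑ a : K, (if f a = 0 then (0 : ℤ) else 1) = ∑ a : K, (if a = 0 then (0 : ℤ) else 1) := by
    apply Finset.sum_congr rfl
    intro a _
    by_cases ha : a = 0
    · simp [ha, h0]
    · rw [if_neg ha, if_neg]
      rcases h a ha with h | h | h <;> rw [h] <;> assumption
  rw [h1]
  have h2 : ∑ a : K, (if a = 0 then (0 : ℤ) else 1) = ∑ a : K, (1 - if a = 0 then (1 : ℤ) else 0) := by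
    apply Finset.sum_congr rfl
    intro a _
    split_ifs <;> rfl
  rw [h2, Finset.sum_sub_distrib]
  simp

/-- the main reduction -/
theorem three_vals {d n : ℕ} (hp : 3 < p) (hq : Fintype.card K = p ^ n) (hn : 0 < n)
    (hd : Nat.Coprime d (p ^ n - 1))
    (h3 : (Set.range fun c : Kˣ => FF p d c).ncard = 3) :
    d ≡ 1 [MOD p - 1] ∧ ∃ A B : ℤ, 0 < A ∧ B < 0 ∧
      (∀ a : K, w p d a = 0 ∨ w p d a = A ∨ w p d a = B) ∧ (∃ a : K, w p d a = A) ∧
      (∃ a : K, w p d a = B) := by
  have hd0 : d ≠ 0 := by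
    rintro rfl
    have h1 : p ^ n - 1 = 1 := by simpa using hd
    have h2 : p ^ 1 ≤ p ^ n := Nat.pow_le_pow_right (by omega) hn
    rw [pow_one] at h2
    omega
  have h3' : (Set.range fun c : Kˣ => W p (ZMod.stdAddChar (N := p)) d (c : K)).ncard = 3 := by
    have e : (Set.range fun c : Kˣ => W p (ZMod.stdAddChar (N := p)) d (c : K)) =
        (fun z : ℂ => 1 + z) '' (Set.range fun c : Kˣ => FF p d c) := by
      rw [← Set.range_comp]
      congr 1
      funext c
      exact FF_eq hd0 c
    rw [e, Set.ncard_image_of_injective _ (fun a b h => by simpa using h), h3]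
  have hd1 := deg_one hp hn hq hd h3'
  refine ⟨hd1, ?_⟩
  -- integer values
  have h4 : (Set.range fun c : Kˣ => w p d (c : K)).ncard = 3 := by
    have e : (Set.range fun c : Kˣ => W p (ZMod.stdAddChar (N := p)) d (c : K)) =
        (fun z : ℤ => (z : ℂ)) '' (Set.range fun c : Kˣ => w p d (c : K)) := by
      rw [← Set.range_comp]
      congr 1
      funext c
      exact W_eq_w M1b_std_ne hp hd1 (c : K)
    rw [e, Set.ncard_image_of_injective _ Int.cast_injective] at h3'
    exact h3'
  obtain ⟨A, B, C, hAB, hAC, hBC, hset⟩ := Set.ncard_eq_three.1 h4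
  have hw0 := w_zero (K := K) hp hq hn hd hd1
  have hmem : ∀ a : K, a ≠ 0 → w p d a = A ∨ w p d a = B ∨ w p d a = C := by
    intro a ha
    have : w p d a ∈ (Set.range fun c : Kˣ => w p d (c : K)) := ⟨Units.mk0 a ha, rfl⟩
    rw [hset] at this
    simpa using this
  have hatt : ∀ z : ℤ, z = A ∨ z = B ∨ z = C → ∃ a : K, w p d a = z := by
    intro z hz
    have : z ∈ (Set.range fun c : Kˣ => w p d (c : K)) := by
      rw [hset]; simpa using hz
    obtain ⟨c, hc⟩ := this
    exact ⟨c, hc⟩
  have hposcard : ∀ z : ℤ, z = A ∨ z = B ∨ z = C →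
      1 ≤ (univ.filter fun a : K => w p d a = z).card := by
    intro z hz
    obtain ⟨a, ha⟩ := hatt z hz
    exact Finset.card_pos.2 ⟨a, by simp [ha]⟩
  -- two nonzero values and zero
  have main : ∀ A B : ℤ, A ≠ 0 → B ≠ 0 → A ≠ B → (∃ a : K, w p d a = A) →
      (∃ a : K, w p d a = B) → (∀ a : K, w p d a = 0 ∨ w p d a = A ∨ w p d a = B) →
      ∃ A B : ℤ, 0 < A ∧ B < 0 ∧
      (∀ a : K, w p d a = 0 ∨ w p d a = A ∨ w p d a = B) ∧ (∃ a : K, w p d a = A) ∧
      (∃ a : K, w p d a = B) := by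
    intro A B hA hB hAB hA1 hB1 hv
    have m1 := w_sum (K := K) hp hq hn hd hd1
    have m2 := w_sq (K := K) hp hq hn hd hd1 1 one_ne_zero
    simp only [one_mul, if_true] at m2
    have m2' : ∑ a : K, w p d a ^ 2 = (p : ℤ) ^ (2 * n) := by
      rw [← m2]; exact Finset.sum_congr rfl fun _ _ => by ring
    have s1 := sum_two hA hB hAB hv (fun x => x) rfl
    have s2 := sum_two hA hB hAB hv (fun x => x ^ 2) (by norm_num)
    rw [s1] at m1
    rw [s2] at m2'
    have hNA : (1 : ℤ) ≤ ((univ.filter fun a : K => w p d a = A).card : ℤ) := by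
      obtain ⟨a, ha⟩ := hA1
      exact_mod_cast Finset.card_pos.2 ⟨a, by simp [ha]⟩
    have hNB : (1 : ℤ) ≤ ((univ.filter fun a : K => w p d a = B).card : ℤ) := by
      obtain ⟨a, ha⟩ := hB1
      exact_mod_cast Finset.card_pos.2 ⟨a, by simp [ha]⟩
    generalize ((univ.filter fun a : K => w p d a = A).card : ℤ) = NA at *
    generalize ((univ.filter fun a : K => w p d a = B).card : ℤ) = NB at *
    have hq0 : (0 : ℤ) < (p : ℤ) ^ n := pow_pos (by exact_mod_cast (by omega : 0 < p)) _
    have hsq : (NA * A + NB * B) ^ 2 = NA * A ^ 2 + NB * B ^ 2 := by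
      rw [m1, m2', ← pow_mul, mul_comm]
    rcases lt_or_gt_of_ne hA with ha | ha <;> rcases lt_or_gt_of_ne hB with hb | hb
    · exfalso
      nlinarith [mul_pos (by omega : (0 : ℤ) < NA) (neg_pos.2 ha),
        mul_pos (by omega : (0 : ℤ) < NB) (neg_pos.2 hb)]
    · exact ⟨B, A, hb, ha, fun a => by rcases hv a with h | h | h <;> simp [h], hB1, hA1⟩
    · exact ⟨A, B, ha, hb, hv, hA1, hB1⟩
    · exfalso
      have h1 : 0 < (NA * A) * (NB * B) := by
        apply mul_pos <;> apply mul_pos <;> omega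
      have h2 : NA * A ^ 2 ≤ (NA * A) ^ 2 := by
        have : 0 ≤ (NA - 1) * (NA * A ^ 2) := by
          apply mul_nonneg (by omega); positivity
        nlinarith
      have h3 : NB * B ^ 2 ≤ (NB * B) ^ 2 := by
        have : 0 ≤ (NB - 1) * (NB * B ^ 2) := by
          apply mul_nonneg (by omega); positivity
        nlinarith
      nlinarith
  have hcase : A = 0 ∨ B = 0 ∨ C = 0 := by
    by_contra hcon
    push Not at hcon
    obtain ⟨hA, hB, hC⟩ := hcon
    have hv : ∀ a : K, w p d a = 0 ∨ w p d a = A ∨ w p d a = B ∨ w p d a = C := by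
      intro a
      by_cases ha : a = 0
      · exact Or.inl (by rw [ha, hw0])
      · exact Or.inr (hmem a ha)
    have s0 := card_filter_three hA hB hC hAB hAC hBC hmem hw0
    have s1 := sum_three hA hB hC hAB hAC hBC hv (fun x => x) rfl
    have s2 := sum_three hA hB hC hAB hAC hBC hv (fun x => x ^ 2) (by norm_num)
    have s3 := sum_three hA hB hC hAB hAC hBC hv (fun x => x ^ 3) (by norm_num)
    have m1 := w_sum (K := K) hp hq hn hd hd1
    have m2 := w_sq (K := K) hp hq hn hd hd1 1 one_ne_zero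
    have m3 := w_cube (K := K) hp hq hn hd hd1 1 one_ne_zero
    simp only [one_mul, if_true] at m2 m3
    have m2' : ∑ a : K, w p d a ^ 2 = (p : ℤ) ^ (2 * n) := by
      rw [← m2]; exact Finset.sum_congr rfl fun _ _ => by ring
    have m3' : ∑ a : K, w p d a ^ 3 = (p : ℤ) ^ (2 * n) * V d (1 : K) := by
      rw [← m3]; exact Finset.sum_congr rfl fun _ _ => by ring
    rw [s1] at m1
    rw [s2] at m2'
    rw [s3] at m3'
    rw [hq] at s0
    push_cast at s0
    exact no_three_nonzero p n _ _ _ Fact.out hp hn A B C (V d (1 : K)) hA hB hC hAB hAC hBC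
      (hposcard A (by simp)) (hposcard B (by simp)) (hposcard C (by simp)) s0 m1 m2' m3'
  have hv0 : ∀ a : K, w p d a = 0 ∨ (w p d a = A ∨ w p d a = B ∨ w p d a = C) := by
    intro a
    by_cases ha : a = 0
    · exact Or.inl (by rw [ha, hw0])
    · exact Or.inr (hmem a ha)
  rcases hcase with h | h | h
  · subst h
    exact main B C hAB.symm hAC.symm hBC (hatt B (by simp)) (hatt C (by simp))
      (fun a => by rcases hv0 a with h | h | h | h <;> simp [h])
  · subst h
    exact main A C hAB hBC.symm hAC (hatt A (by simp)) (hatt C (by simp))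
      (fun a => by rcases hv0 a with h | h | h | h <;> simp [h])
  · subst h
    exact main A B hAC hBC hAB (hatt A (by simp)) (hatt B (by simp))
      (fun a => by rcases hv0 a with h | h | h | h <;> simp [h])

end

end Pool.Agent.helper75.MS
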