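import Pool.Agent.helper75.MS.Chk

namespace Pool.Agent.helper75.MS

/-- patterns -/
def P31 : List (List (List ℕ × List ℕ)) := [[([1, 0, 0, 0], [0, 0, 1, 0]), ([0, 0, 1, 0], [1, 0, 0, 0]), ([0, 2, 0, 0], [0, 0, 0, 1]), ([0, 0, 0, 1], [0, 2, 0, 0])],
  [([1, 1, 0, 0], [0, 0, 1, 0]), ([0, 0, 1, 0], [1, 1, 0, 0]), ([0, 1, 0, 0], [0, 0, 0, 1]), ([0, 0, 0, 1], [0, 1, 0, 0])]]

/-- table -/
def J31 : List (List ℕ × List ℕ) := [([2, 0, 1], [4294967298, 8589934592, 1]),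
  ([2, 1, 0], [2, 8589934593, 4294967296])]

/-- base context -/
def B31 : List (List ℕ × List ℕ) := [([0, 0, 0, 0], [0, 0, 1, 0]),
  ([0, 0, 0, 0], [0, 0, 0, 1]),
  ([0, 0, 1, 0], [0, 2, 0, 0]),
  ([0, 0, 0, 1], [0, 2, 0, 0]),
  ([2, 0, 0, 0], [0, 1, 0, 0]),
  ([1, 2, 0, 0], [0, 0, 1, 1]),
  ([0, 0, 1, 1], [1, 2, 0, 0])]

/-- the tree -/
noncomputable def T31 : Tree :=
  .node 0x100000002 0x10000000000000000
 (.viol 0 [1,0,0] [0x4300810040,0x4800440040,0x830040,0x8800810040,0x420040,0x440040])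
 (.node 0x2 0x10000000000000000
  (.node 0x100000001 0x1000000000000000000000000
   (.viol 1 [0,1,0] [0x820040,0x8a00810040,0x4200810040,0x8a00420040,0x43004200410040,0x4a00420040])
   (.sol 1 [0x4900410040,0x430040,0x4900430040,0x410040]))
  (.sol 0 [0x4800460040,0x410040,0x4800410040,0x460040]))

theorem tab31 : tabOK 3 J31 := by unfold tabOK J31; decide +kernel

theorem check31 : check 3 1 2 J31 P31 T31 (B31.map fun v => (K v.1, K v.2)) = true := by decide +kernel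

end Pool.Agent.helper75.MS
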