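import Pool.Agent.helper75.MS.Chk

namespace Pool.Agent.helper75.MS

/-- patterns -/
def P41 : List (List (List ℕ × List ℕ)) := []

/-- table -/
def J41 : List (List ℕ × List ℕ) := [([1, 1, 0, 0], [1, 4294967297, 18446744078004518912, 18446744073709551616]),
  ([1, 0, 1, 0], [18446744073709551617, 4294967296, 18446744073709551617, 4294967296])]

/-- base context -/
def B41 : List (List ℕ × List ℕ) := [([0, 0, 0, 0, 0], [0, 0, 1, 0, 0]),
  ([0, 0, 0, 0, 0], [0, 0, 0, 1, 0]),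
  ([0, 0, 0, 0, 0], [0, 0, 0, 0, 1]),
  ([0, 0, 1, 0, 0], [0, 2, 0, 0, 0]),
  ([0, 0, 0, 1, 0], [0, 2, 0, 0, 0]),
  ([0, 0, 0, 0, 1], [0, 2, 0, 0, 0]),
  ([2, 0, 0, 0, 0], [0, 1, 0, 0, 0]),
  ([1, 2, 0, 0, 0], [0, 0, 1, 1, 1]),
  ([0, 0, 1, 1, 1], [1, 2, 0, 0, 0])]

/-- the tree -/
noncomputable def T41 : Tree :=
  .node 0x200000001 0x100000000000000010000000000000000
 (.viol 0 [0,0,0,0] [0x420040,0x450040,0x4300420040,0x4a004500410040,0x4400430040,0x4a004700410040,0x440040,0x470040])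
 (.viol 1 [0,0,0,0] [0x4400420040,0x410040,0x430040,0x460040,0x4400420040,0x410040,0x430040,0x460040])

theorem tab41 : tabOK 4 J41 := by unfold tabOK J41; decide +kernel

theorem check41 : check 4 1 3 J41 P41 T41 (B41.map fun v => (K v.1, K v.2)) = true := by decide +kernel

end Pool.Agent.helper75.MS
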