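import Pool.Agent.helper75.MS.Fin
import Pool.Agent.helper75.MS.D61

namespace Pool.Agent.helper75.MS

open Finset

theorem cls61 {p d r h : ℕ} {D : ℕ → ℕ} (hph : p = 2 * h + 1) (hp : 3 < p) (hr : r < 6)
    (hlt : ∀ i < 6, D i < p) (hD : D 5 = 0) (hs : ∑ i ∈ range 6, D i = 1 * (p - 1) + 1)
    (H : NV 6 1 4 p D)
    (hd : (d : ZMod (p ^ 6 - 1)) * (p : ZMod (p ^ 6 - 1)) ^ r =
      ((∑ i ∈ range 6, D i * p ^ i : ℕ) : ZMod (p ^ 6 - 1))) : Concl p 6 d := by
  simp only [Finset.sum_range_succ, Finset.sum_range_zero, zero_add] at hs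
  have l0 := hlt 0 (by norm_num)
  have l1 := hlt 1 (by norm_num)
  have l2 := hlt 2 (by norm_num)
  have l3 := hlt 3 (by norm_num)
  have l4 := hlt 4 (by norm_num)
  have hbase : ∀ v ∈ B61, ev v.1 (1 :: env 6 h D) ≤ ev v.2 (1 :: env 6 h D) := by
    intro v hv
    simp only [B61, List.mem_cons, List.not_mem_nil, or_false] at hv
    rcases hv with rfl | rfl | rfl | rfl | rfl | rfl | rfl | rfl | rfl | rfl | rfl | rfl | rfl <;>
      simp only [ev, env, List.range_succ, List.range_zero, List.nil_append, List.cons_append,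
        List.map_cons, List.map_nil, Nat.reduceSub] <;> omega
  obtain ⟨q, hq, hv⟩ := check_sound (by norm_num) hph (by omega) hD H tab61 P61 T61 _
    (sat_base B61 (by decide) hbase) check61
  simp only [env, List.range_succ, List.range_zero, List.nil_append, List.cons_append,
    List.map_cons, List.map_nil, Nat.reduceSub] at hv
  replace hq : q < 0 := hq
  omega

end Pool.Agent.helper75.MS
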