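import Pool.Agent.helper75.MS.Fin
import Pool.Agent.helper75.MS.D71

namespace Pool.Agent.helper75.MS

open Finset

theorem pat71_0 {p d r h : ℕ} {D : ℕ → ℕ} (hph : p = 2 * h + 1) (hp : 3 < p) (hr : r < 7)
    (e0 : D 0 = 0)
    (e1 : D 1 = 0)
    (e2 : D 2 = 0)
    (e3 : D 3 = 0)
    (e4 : D 4 = 1)
    (e5 : D 5 = 2 * h)
    (e6 : D 6 = 0)
    (hd : (d : ZMod (p ^ 7 - 1)) * (p : ZMod (p ^ 7 - 1)) ^ r =
      ((∑ i ∈ range 7, D i * p ^ i : ℕ) : ZMod (p ^ 7 - 1))) : Concl p 7 d := by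
  have hP : ((p : ZMod (p ^ 7 - 1))) ^ 7 = 1 := pow_eq_one_ZMod (by omega)
  have c0 := congrArg (Nat.cast (R := ZMod (p ^ 7 - 1))) e0
  have c1 := congrArg (Nat.cast (R := ZMod (p ^ 7 - 1))) e1
  have c2 := congrArg (Nat.cast (R := ZMod (p ^ 7 - 1))) e2
  have c3 := congrArg (Nat.cast (R := ZMod (p ^ 7 - 1))) e3
  have c4 := congrArg (Nat.cast (R := ZMod (p ^ 7 - 1))) e4
  have c5 := congrArg (Nat.cast (R := ZMod (p ^ 7 - 1))) e5
  have c6 := congrArg (Nat.cast (R := ZMod (p ^ 7 - 1))) e6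
  push_cast at c0 c1 c2 c3 c4 c5 c6 hd
  simp only [Finset.sum_range_succ, Finset.sum_range_zero, zero_add, pow_zero, mul_one] at hd
  refine concl_A (t := 4) (k := 1) (e := (p ^ (2 * 1) - p ^ 1 + 1)) hp hr hd ?_ (by norm_num) (by decide) (Or.inr rfl)
  rw [cast_e2 (by omega) 1]
  have hPH := cast_h (R := ZMod (p ^ 7 - 1)) hph
  generalize (h : ZMod (p ^ 7 - 1)) = H at *
  generalize (p : ZMod (p ^ 7 - 1)) = P at *
  subst hPH
  linear_combination (2 * H + 1) ^ 0 * c0 + (2 * H + 1) ^ 1 * c1 + (2 * H + 1) ^ 2 * c2 + (2 * H + 1) ^ 3 * c3 + (2 * H + 1) ^ 4 * c4 + (2 * H + 1) ^ 5 * c5 + (2 * H + 1) ^ 6 * c6 + (0) * hP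

theorem pat71_1 {p d r h : ℕ} {D : ℕ → ℕ} (hph : p = 2 * h + 1) (hp : 3 < p) (hr : r < 7)
    (e0 : D 0 = 0)
    (e1 : D 1 = 0)
    (e2 : D 2 = 0)
    (e3 : D 3 = 0)
    (e4 : D 4 = 1 * h + 1)
    (e5 : D 5 = 1 * h)
    (e6 : D 6 = 0)
    (hd : (d : ZMod (p ^ 7 - 1)) * (p : ZMod (p ^ 7 - 1)) ^ r =
      ((∑ i ∈ range 7, D i * p ^ i : ℕ) : ZMod (p ^ 7 - 1))) : Concl p 7 d := by
  have hP : ((p : ZMod (p ^ 7 - 1))) ^ 7 = 1 := pow_eq_one_ZMod (by omega)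
  have c0 := congrArg (Nat.cast (R := ZMod (p ^ 7 - 1))) e0
  have c1 := congrArg (Nat.cast (R := ZMod (p ^ 7 - 1))) e1
  have c2 := congrArg (Nat.cast (R := ZMod (p ^ 7 - 1))) e2
  have c3 := congrArg (Nat.cast (R := ZMod (p ^ 7 - 1))) e3
  have c4 := congrArg (Nat.cast (R := ZMod (p ^ 7 - 1))) e4
  have c5 := congrArg (Nat.cast (R := ZMod (p ^ 7 - 1))) e5
  have c6 := congrArg (Nat.cast (R := ZMod (p ^ 7 - 1))) e6
  push_cast at c0 c1 c2 c3 c4 c5 c6 hd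
  simp only [Finset.sum_range_succ, Finset.sum_range_zero, zero_add, pow_zero, mul_one] at hd
  refine concl_A (t := 4) (k := 1) (e := ((p ^ (2 * 1) + 1) / 2)) hp hr hd ?_ (by norm_num) (by decide) (Or.inl rfl)
  rw [cast_e1 hph 1]
  simp only [Finset.sum_range_succ, Finset.sum_range_zero, zero_add, pow_zero, Nat.reduceMul]
  have hPH := cast_h (R := ZMod (p ^ 7 - 1)) hph
  generalize (h : ZMod (p ^ 7 - 1)) = H at *
  generalize (p : ZMod (p ^ 7 - 1)) = P at *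
  subst hPH
  linear_combination (2 * H + 1) ^ 0 * c0 + (2 * H + 1) ^ 1 * c1 + (2 * H + 1) ^ 2 * c2 + (2 * H + 1) ^ 3 * c3 + (2 * H + 1) ^ 4 * c4 + (2 * H + 1) ^ 5 * c5 + (2 * H + 1) ^ 6 * c6 + (0) * hP

theorem pat71_2 {p d r h : ℕ} {D : ℕ → ℕ} (hph : p = 2 * h + 1) (hp : 3 < p) (hr : r < 7)
    (e0 : D 0 = 0)
    (e1 : D 1 = 0)
    (e2 : D 2 = 0)
    (e3 : D 3 = 1)
    (e4 : D 4 = 2 * h)
    (e5 : D 5 = 0)
    (e6 : D 6 = 0)
    (hd : (d : ZMod (p ^ 7 - 1)) * (p : ZMod (p ^ 7 - 1)) ^ r =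
      ((∑ i ∈ range 7, D i * p ^ i : ℕ) : ZMod (p ^ 7 - 1))) : Concl p 7 d := by
  have hP : ((p : ZMod (p ^ 7 - 1))) ^ 7 = 1 := pow_eq_one_ZMod (by omega)
  have c0 := congrArg (Nat.cast (R := ZMod (p ^ 7 - 1))) e0
  have c1 := congrArg (Nat.cast (R := ZMod (p ^ 7 - 1))) e1
  have c2 := congrArg (Nat.cast (R := ZMod (p ^ 7 - 1))) e2
  have c3 := congrArg (Nat.cast (R := ZMod (p ^ 7 - 1))) e3
  have c4 := congrArg (Nat.cast (R := ZMod (p ^ 7 - 1))) e4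
  have c5 := congrArg (Nat.cast (R := ZMod (p ^ 7 - 1))) e5
  have c6 := congrArg (Nat.cast (R := ZMod (p ^ 7 - 1))) e6
  push_cast at c0 c1 c2 c3 c4 c5 c6 hd
  simp only [Finset.sum_range_succ, Finset.sum_range_zero, zero_add, pow_zero, mul_one] at hd
  refine concl_A (t := 3) (k := 1) (e := (p ^ (2 * 1) - p ^ 1 + 1)) hp hr hd ?_ (by norm_num) (by decide) (Or.inr rfl)
  rw [cast_e2 (by omega) 1]
  have hPH := cast_h (R := ZMod (p ^ 7 - 1)) hph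
  generalize (h : ZMod (p ^ 7 - 1)) = H at *
  generalize (p : ZMod (p ^ 7 - 1)) = P at *
  subst hPH
  linear_combination (2 * H + 1) ^ 0 * c0 + (2 * H + 1) ^ 1 * c1 + (2 * H + 1) ^ 2 * c2 + (2 * H + 1) ^ 3 * c3 + (2 * H + 1) ^ 4 * c4 + (2 * H + 1) ^ 5 * c5 + (2 * H + 1) ^ 6 * c6 + (0) * hP

theorem pat71_3 {p d r h : ℕ} {D : ℕ → ℕ} (hph : p = 2 * h + 1) (hp : 3 < p) (hr : r < 7)
    (e0 : D 0 = 0)
    (e1 : D 1 = 0)
    (e2 : D 2 = 0)
    (e3 : D 3 = 1 * h + 1)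
    (e4 : D 4 = 1 * h)
    (e5 : D 5 = 0)
    (e6 : D 6 = 0)
    (hd : (d : ZMod (p ^ 7 - 1)) * (p : ZMod (p ^ 7 - 1)) ^ r =
      ((∑ i ∈ range 7, D i * p ^ i : ℕ) : ZMod (p ^ 7 - 1))) : Concl p 7 d := by
  have hP : ((p : ZMod (p ^ 7 - 1))) ^ 7 = 1 := pow_eq_one_ZMod (by omega)
  have c0 := congrArg (Nat.cast (R := ZMod (p ^ 7 - 1))) e0
  have c1 := congrArg (Nat.cast (R := ZMod (p ^ 7 - 1))) e1
  have c2 := congrArg (Nat.cast (R := ZMod (p ^ 7 - 1))) e2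
  have c3 := congrArg (Nat.cast (R := ZMod (p ^ 7 - 1))) e3
  have c4 := congrArg (Nat.cast (R := ZMod (p ^ 7 - 1))) e4
  have c5 := congrArg (Nat.cast (R := ZMod (p ^ 7 - 1))) e5
  have c6 := congrArg (Nat.cast (R := ZMod (p ^ 7 - 1))) e6
  push_cast at c0 c1 c2 c3 c4 c5 c6 hd
  simp only [Finset.sum_range_succ, Finset.sum_range_zero, zero_add, pow_zero, mul_one] at hd
  refine concl_A (t := 3) (k := 1) (e := ((p ^ (2 * 1) + 1) / 2)) hp hr hd ?_ (by norm_num) (by decide) (Or.inl rfl)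
  rw [cast_e1 hph 1]
  simp only [Finset.sum_range_succ, Finset.sum_range_zero, zero_add, pow_zero, Nat.reduceMul]
  have hPH := cast_h (R := ZMod (p ^ 7 - 1)) hph
  generalize (h : ZMod (p ^ 7 - 1)) = H at *
  generalize (p : ZMod (p ^ 7 - 1)) = P at *
  subst hPH
  linear_combination (2 * H + 1) ^ 0 * c0 + (2 * H + 1) ^ 1 * c1 + (2 * H + 1) ^ 2 * c2 + (2 * H + 1) ^ 3 * c3 + (2 * H + 1) ^ 4 * c4 + (2 * H + 1) ^ 5 * c5 + (2 * H + 1) ^ 6 * c6 + (0) * hP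

theorem pat71_4 {p d r h : ℕ} {D : ℕ → ℕ} (hph : p = 2 * h + 1) (hp : 3 < p) (hr : r < 7)
    (e0 : D 0 = 0)
    (e1 : D 1 = 0)
    (e2 : D 2 = 1)
    (e3 : D 3 = 2 * h)
    (e4 : D 4 = 0)
    (e5 : D 5 = 0)
    (e6 : D 6 = 0)
    (hd : (d : ZMod (p ^ 7 - 1)) * (p : ZMod (p ^ 7 - 1)) ^ r =
      ((∑ i ∈ range 7, D i * p ^ i : ℕ) : ZMod (p ^ 7 - 1))) : Concl p 7 d := by
  have hP : ((p : ZMod (p ^ 7 - 1))) ^ 7 = 1 := pow_eq_one_ZMod (by omega)
  have c0 := congrArg (Nat.cast (R := ZMod (p ^ 7 - 1))) e0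
  have c1 := congrArg (Nat.cast (R := ZMod (p ^ 7 - 1))) e1
  have c2 := congrArg (Nat.cast (R := ZMod (p ^ 7 - 1))) e2
  have c3 := congrArg (Nat.cast (R := ZMod (p ^ 7 - 1))) e3
  have c4 := congrArg (Nat.cast (R := ZMod (p ^ 7 - 1))) e4
  have c5 := congrArg (Nat.cast (R := ZMod (p ^ 7 - 1))) e5
  have c6 := congrArg (Nat.cast (R := ZMod (p ^ 7 - 1))) e6
  push_cast at c0 c1 c2 c3 c4 c5 c6 hd
  simp only [Finset.sum_range_succ, Finset.sum_range_zero, zero_add, pow_zero, mul_one] at hd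
  refine concl_A (t := 2) (k := 1) (e := (p ^ (2 * 1) - p ^ 1 + 1)) hp hr hd ?_ (by norm_num) (by decide) (Or.inr rfl)
  rw [cast_e2 (by omega) 1]
  have hPH := cast_h (R := ZMod (p ^ 7 - 1)) hph
  generalize (h : ZMod (p ^ 7 - 1)) = H at *
  generalize (p : ZMod (p ^ 7 - 1)) = P at *
  subst hPH
  linear_combination (2 * H + 1) ^ 0 * c0 + (2 * H + 1) ^ 1 * c1 + (2 * H + 1) ^ 2 * c2 + (2 * H + 1) ^ 3 * c3 + (2 * H + 1) ^ 4 * c4 + (2 * H + 1) ^ 5 * c5 + (2 * H + 1) ^ 6 * c6 + (0) * hP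

theorem pat71_5 {p d r h : ℕ} {D : ℕ → ℕ} (hph : p = 2 * h + 1) (hp : 3 < p) (hr : r < 7)
    (e0 : D 0 = 0)
    (e1 : D 1 = 0)
    (e2 : D 2 = 1 * h + 1)
    (e3 : D 3 = 1 * h)
    (e4 : D 4 = 0)
    (e5 : D 5 = 0)
    (e6 : D 6 = 0)
    (hd : (d : ZMod (p ^ 7 - 1)) * (p : ZMod (p ^ 7 - 1)) ^ r =
      ((∑ i ∈ range 7, D i * p ^ i : ℕ) : ZMod (p ^ 7 - 1))) : Concl p 7 d := by
  have hP : ((p : ZMod (p ^ 7 - 1))) ^ 7 = 1 := pow_eq_one_ZMod (by omega)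
  have c0 := congrArg (Nat.cast (R := ZMod (p ^ 7 - 1))) e0
  have c1 := congrArg (Nat.cast (R := ZMod (p ^ 7 - 1))) e1
  have c2 := congrArg (Nat.cast (R := ZMod (p ^ 7 - 1))) e2
  have c3 := congrArg (Nat.cast (R := ZMod (p ^ 7 - 1))) e3
  have c4 := congrArg (Nat.cast (R := ZMod (p ^ 7 - 1))) e4
  have c5 := congrArg (Nat.cast (R := ZMod (p ^ 7 - 1))) e5
  have c6 := congrArg (Nat.cast (R := ZMod (p ^ 7 - 1))) e6
  push_cast at c0 c1 c2 c3 c4 c5 c6 hd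
  simp only [Finset.sum_range_succ, Finset.sum_range_zero, zero_add, pow_zero, mul_one] at hd
  refine concl_A (t := 2) (k := 1) (e := ((p ^ (2 * 1) + 1) / 2)) hp hr hd ?_ (by norm_num) (by decide) (Or.inl rfl)
  rw [cast_e1 hph 1]
  simp only [Finset.sum_range_succ, Finset.sum_range_zero, zero_add, pow_zero, Nat.reduceMul]
  have hPH := cast_h (R := ZMod (p ^ 7 - 1)) hph
  generalize (h : ZMod (p ^ 7 - 1)) = H at *
  generalize (p : ZMod (p ^ 7 - 1)) = P at *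
  subst hPH
  linear_combination (2 * H + 1) ^ 0 * c0 + (2 * H + 1) ^ 1 * c1 + (2 * H + 1) ^ 2 * c2 + (2 * H + 1) ^ 3 * c3 + (2 * H + 1) ^ 4 * c4 + (2 * H + 1) ^ 5 * c5 + (2 * H + 1) ^ 6 * c6 + (0) * hP

theorem pat71_6 {p d r h : ℕ} {D : ℕ → ℕ} (hph : p = 2 * h + 1) (hp : 3 < p) (hr : r < 7)
    (e0 : D 0 = 0)
    (e1 : D 1 = 1)
    (e2 : D 2 = 2 * h)
    (e3 : D 3 = 0)
    (e4 : D 4 = 0)
    (e5 : D 5 = 0)
    (e6 : D 6 = 0)
    (hd : (d : ZMod (p ^ 7 - 1)) * (p : ZMod (p ^ 7 - 1)) ^ r =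
      ((∑ i ∈ range 7, D i * p ^ i : ℕ) : ZMod (p ^ 7 - 1))) : Concl p 7 d := by
  have hP : ((p : ZMod (p ^ 7 - 1))) ^ 7 = 1 := pow_eq_one_ZMod (by omega)
  have c0 := congrArg (Nat.cast (R := ZMod (p ^ 7 - 1))) e0
  have c1 := congrArg (Nat.cast (R := ZMod (p ^ 7 - 1))) e1
  have c2 := congrArg (Nat.cast (R := ZMod (p ^ 7 - 1))) e2
  have c3 := congrArg (Nat.cast (R := ZMod (p ^ 7 - 1))) e3
  have c4 := congrArg (Nat.cast (R := ZMod (p ^ 7 - 1))) e4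
  have c5 := congrArg (Nat.cast (R := ZMod (p ^ 7 - 1))) e5
  have c6 := congrArg (Nat.cast (R := ZMod (p ^ 7 - 1))) e6
  push_cast at c0 c1 c2 c3 c4 c5 c6 hd
  simp only [Finset.sum_range_succ, Finset.sum_range_zero, zero_add, pow_zero, mul_one] at hd
  refine concl_A (t := 1) (k := 1) (e := (p ^ (2 * 1) - p ^ 1 + 1)) hp hr hd ?_ (by norm_num) (by decide) (Or.inr rfl)
  rw [cast_e2 (by omega) 1]
  have hPH := cast_h (R := ZMod (p ^ 7 - 1)) hph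
  generalize (h : ZMod (p ^ 7 - 1)) = H at *
  generalize (p : ZMod (p ^ 7 - 1)) = P at *
  subst hPH
  linear_combination (2 * H + 1) ^ 0 * c0 + (2 * H + 1) ^ 1 * c1 + (2 * H + 1) ^ 2 * c2 + (2 * H + 1) ^ 3 * c3 + (2 * H + 1) ^ 4 * c4 + (2 * H + 1) ^ 5 * c5 + (2 * H + 1) ^ 6 * c6 + (0) * hP

theorem pat71_7 {p d r h : ℕ} {D : ℕ → ℕ} (hph : p = 2 * h + 1) (hp : 3 < p) (hr : r < 7)
    (e0 : D 0 = 0)
    (e1 : D 1 = 1 * h + 1)
    (e2 : D 2 = 1 * h)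
    (e3 : D 3 = 0)
    (e4 : D 4 = 0)
    (e5 : D 5 = 0)
    (e6 : D 6 = 0)
    (hd : (d : ZMod (p ^ 7 - 1)) * (p : ZMod (p ^ 7 - 1)) ^ r =
      ((∑ i ∈ range 7, D i * p ^ i : ℕ) : ZMod (p ^ 7 - 1))) : Concl p 7 d := by
  have hP : ((p : ZMod (p ^ 7 - 1))) ^ 7 = 1 := pow_eq_one_ZMod (by omega)
  have c0 := congrArg (Nat.cast (R := ZMod (p ^ 7 - 1))) e0
  have c1 := congrArg (Nat.cast (R := ZMod (p ^ 7 - 1))) e1
  have c2 := congrArg (Nat.cast (R := ZMod (p ^ 7 - 1))) e2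
  have c3 := congrArg (Nat.cast (R := ZMod (p ^ 7 - 1))) e3
  have c4 := congrArg (Nat.cast (R := ZMod (p ^ 7 - 1))) e4
  have c5 := congrArg (Nat.cast (R := ZMod (p ^ 7 - 1))) e5
  have c6 := congrArg (Nat.cast (R := ZMod (p ^ 7 - 1))) e6
  push_cast at c0 c1 c2 c3 c4 c5 c6 hd
  simp only [Finset.sum_range_succ, Finset.sum_range_zero, zero_add, pow_zero, mul_one] at hd
  refine concl_A (t := 1) (k := 1) (e := ((p ^ (2 * 1) + 1) / 2)) hp hr hd ?_ (by norm_num) (by decide) (Or.inl rfl)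
  rw [cast_e1 hph 1]
  simp only [Finset.sum_range_succ, Finset.sum_range_zero, zero_add, pow_zero, Nat.reduceMul]
  have hPH := cast_h (R := ZMod (p ^ 7 - 1)) hph
  generalize (h : ZMod (p ^ 7 - 1)) = H at *
  generalize (p : ZMod (p ^ 7 - 1)) = P at *
  subst hPH
  linear_combination (2 * H + 1) ^ 0 * c0 + (2 * H + 1) ^ 1 * c1 + (2 * H + 1) ^ 2 * c2 + (2 * H + 1) ^ 3 * c3 + (2 * H + 1) ^ 4 * c4 + (2 * H + 1) ^ 5 * c5 + (2 * H + 1) ^ 6 * c6 + (0) * hP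

theorem pat71_8 {p d r h : ℕ} {D : ℕ → ℕ} (hph : p = 2 * h + 1) (hp : 3 < p) (hr : r < 7)
    (e0 : D 0 = 1)
    (e1 : D 1 = 2 * h)
    (e2 : D 2 = 0)
    (e3 : D 3 = 0)
    (e4 : D 4 = 0)
    (e5 : D 5 = 0)
    (e6 : D 6 = 0)
    (hd : (d : ZMod (p ^ 7 - 1)) * (p : ZMod (p ^ 7 - 1)) ^ r =
      ((∑ i ∈ range 7, D i * p ^ i : ℕ) : ZMod (p ^ 7 - 1))) : Concl p 7 d := by
  have hP : ((p : ZMod (p ^ 7 - 1))) ^ 7 = 1 := pow_eq_one_ZMod (by omega)
  have c0 := congrArg (Nat.cast (R := ZMod (p ^ 7 - 1))) e0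
  have c1 := congrArg (Nat.cast (R := ZMod (p ^ 7 - 1))) e1
  have c2 := congrArg (Nat.cast (R := ZMod (p ^ 7 - 1))) e2
  have c3 := congrArg (Nat.cast (R := ZMod (p ^ 7 - 1))) e3
  have c4 := congrArg (Nat.cast (R := ZMod (p ^ 7 - 1))) e4
  have c5 := congrArg (Nat.cast (R := ZMod (p ^ 7 - 1))) e5
  have c6 := congrArg (Nat.cast (R := ZMod (p ^ 7 - 1))) e6
  push_cast at c0 c1 c2 c3 c4 c5 c6 hd
  simp only [Finset.sum_range_succ, Finset.sum_range_zero, zero_add, pow_zero, mul_one] at hd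
  refine concl_A (t := 0) (k := 1) (e := (p ^ (2 * 1) - p ^ 1 + 1)) hp hr hd ?_ (by norm_num) (by decide) (Or.inr rfl)
  rw [cast_e2 (by omega) 1]
  have hPH := cast_h (R := ZMod (p ^ 7 - 1)) hph
  generalize (h : ZMod (p ^ 7 - 1)) = H at *
  generalize (p : ZMod (p ^ 7 - 1)) = P at *
  subst hPH
  linear_combination (2 * H + 1) ^ 0 * c0 + (2 * H + 1) ^ 1 * c1 + (2 * H + 1) ^ 2 * c2 + (2 * H + 1) ^ 3 * c3 + (2 * H + 1) ^ 4 * c4 + (2 * H + 1) ^ 5 * c5 + (2 * H + 1) ^ 6 * c6 + (0) * hP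

theorem pat71_9 {p d r h : ℕ} {D : ℕ → ℕ} (hph : p = 2 * h + 1) (hp : 3 < p) (hr : r < 7)
    (e0 : D 0 = 1 * h + 1)
    (e1 : D 1 = 1 * h)
    (e2 : D 2 = 0)
    (e3 : D 3 = 0)
    (e4 : D 4 = 0)
    (e5 : D 5 = 0)
    (e6 : D 6 = 0)
    (hd : (d : ZMod (p ^ 7 - 1)) * (p : ZMod (p ^ 7 - 1)) ^ r =
      ((∑ i ∈ range 7, D i * p ^ i : ℕ) : ZMod (p ^ 7 - 1))) : Concl p 7 d := by
  have hP : ((p : ZMod (p ^ 7 - 1))) ^ 7 = 1 := pow_eq_one_ZMod (by omega)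
  have c0 := congrArg (Nat.cast (R := ZMod (p ^ 7 - 1))) e0
  have c1 := congrArg (Nat.cast (R := ZMod (p ^ 7 - 1))) e1
  have c2 := congrArg (Nat.cast (R := ZMod (p ^ 7 - 1))) e2
  have c3 := congrArg (Nat.cast (R := ZMod (p ^ 7 - 1))) e3
  have c4 := congrArg (Nat.cast (R := ZMod (p ^ 7 - 1))) e4
  have c5 := congrArg (Nat.cast (R := ZMod (p ^ 7 - 1))) e5
  have c6 := congrArg (Nat.cast (R := ZMod (p ^ 7 - 1))) e6
  push_cast at c0 c1 c2 c3 c4 c5 c6 hd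
  simp only [Finset.sum_range_succ, Finset.sum_range_zero, zero_add, pow_zero, mul_one] at hd
  refine concl_A (t := 0) (k := 1) (e := ((p ^ (2 * 1) + 1) / 2)) hp hr hd ?_ (by norm_num) (by decide) (Or.inl rfl)
  rw [cast_e1 hph 1]
  simp only [Finset.sum_range_succ, Finset.sum_range_zero, zero_add, pow_zero, Nat.reduceMul]
  have hPH := cast_h (R := ZMod (p ^ 7 - 1)) hph
  generalize (h : ZMod (p ^ 7 - 1)) = H at *
  generalize (p : ZMod (p ^ 7 - 1)) = P at *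
  subst hPH
  linear_combination (2 * H + 1) ^ 0 * c0 + (2 * H + 1) ^ 1 * c1 + (2 * H + 1) ^ 2 * c2 + (2 * H + 1) ^ 3 * c3 + (2 * H + 1) ^ 4 * c4 + (2 * H + 1) ^ 5 * c5 + (2 * H + 1) ^ 6 * c6 + (0) * hP

theorem cls71 {p d r h : ℕ} {D : ℕ → ℕ} (hph : p = 2 * h + 1) (hp : 3 < p) (hr : r < 7)
    (hlt : ∀ i < 7, D i < p) (hD : D 6 = 0) (hs : ∑ i ∈ range 7, D i = 1 * (p - 1) + 1)
    (H : NV 7 1 4 p D)
    (hd : (d : ZMod (p ^ 7 - 1)) * (p : ZMod (p ^ 7 - 1)) ^ r =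
      ((∑ i ∈ range 7, D i * p ^ i : ℕ) : ZMod (p ^ 7 - 1))) : Concl p 7 d := by
  simp only [Finset.sum_range_succ, Finset.sum_range_zero, zero_add] at hs
  have l0 := hlt 0 (by norm_num)
  have l1 := hlt 1 (by norm_num)
  have l2 := hlt 2 (by norm_num)
  have l3 := hlt 3 (by norm_num)
  have l4 := hlt 4 (by norm_num)
  have l5 := hlt 5 (by norm_num)
  have hbase : ∀ v ∈ B71, ev v.1 (1 :: env 7 h D) ≤ ev v.2 (1 :: env 7 h D) := by
    intro v hv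
    simp only [B71, List.mem_cons, List.not_mem_nil, or_false] at hv
    rcases hv with rfl | rfl | rfl | rfl | rfl | rfl | rfl | rfl | rfl | rfl | rfl | rfl | rfl | rfl | rfl <;>
      simp only [ev, env, List.range_succ, List.range_zero, List.nil_append, List.cons_append,
        List.map_cons, List.map_nil, Nat.reduceSub] <;> omega
  obtain ⟨q, hq, hv⟩ := check_sound (by norm_num) hph (by omega) hD H tab71 P71 T71 _
    (sat_base B71 (by decide) hbase) check71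
  simp only [env, List.range_succ, List.range_zero, List.nil_append, List.cons_append,
    List.map_cons, List.map_nil, Nat.reduceSub] at hv
  replace hq : q < 10 := hq
  interval_cases q
  · simp only [P71, List.getD_cons_zero, List.getD_cons_succ, List.mem_cons, List.not_mem_nil,
      or_false, forall_eq_or_imp, forall_eq, ev] at hv
    exact pat71_0 hph hp hr (by omega) (by omega) (by omega) (by omega) (by omega) (by omega) hD hd
  · simp only [P71, List.getD_cons_zero, List.getD_cons_succ, List.mem_cons, List.not_mem_nil,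
      or_false, forall_eq_or_imp, forall_eq, ev] at hv
    exact pat71_1 hph hp hr (by omega) (by omega) (by omega) (by omega) (by omega) (by omega) hD hd
  · simp only [P71, List.getD_cons_zero, List.getD_cons_succ, List.mem_cons, List.not_mem_nil,
      or_false, forall_eq_or_imp, forall_eq, ev] at hv
    exact pat71_2 hph hp hr (by omega) (by omega) (by omega) (by omega) (by omega) (by omega) hD hd
  · simp only [P71, List.getD_cons_zero, List.getD_cons_succ, List.mem_cons, List.not_mem_nil,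
      or_false, forall_eq_or_imp, forall_eq, ev] at hv
    exact pat71_3 hph hp hr (by omega) (by omega) (by omega) (by omega) (by omega) (by omega) hD hd
  · simp only [P71, List.getD_cons_zero, List.getD_cons_succ, List.mem_cons, List.not_mem_nil,
      or_false, forall_eq_or_imp, forall_eq, ev] at hv
    exact pat71_4 hph hp hr (by omega) (by omega) (by omega) (by omega) (by omega) (by omega) hD hd
  · simp only [P71, List.getD_cons_zero, List.getD_cons_succ, List.mem_cons, List.not_mem_nil,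
      or_false, forall_eq_or_imp, forall_eq, ev] at hv
    exact pat71_5 hph hp hr (by omega) (by omega) (by omega) (by omega) (by omega) (by omega) hD hd
  · simp only [P71, List.getD_cons_zero, List.getD_cons_succ, List.mem_cons, List.not_mem_nil,
      or_false, forall_eq_or_imp, forall_eq, ev] at hv
    exact pat71_6 hph hp hr (by omega) (by omega) (by omega) (by omega) (by omega) (by omega) hD hd
  · simp only [P71, List.getD_cons_zero, List.getD_cons_succ, List.mem_cons, List.not_mem_nil,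
      or_false, forall_eq_or_imp, forall_eq, ev] at hv
    exact pat71_7 hph hp hr (by omega) (by omega) (by omega) (by omega) (by omega) (by omega) hD hd
  · simp only [P71, List.getD_cons_zero, List.getD_cons_succ, List.mem_cons, List.not_mem_nil,
      or_false, forall_eq_or_imp, forall_eq, ev] at hv
    exact pat71_8 hph hp hr (by omega) (by omega) (by omega) (by omega) (by omega) (by omega) hD hd
  · simp only [P71, List.getD_cons_zero, List.getD_cons_succ, List.mem_cons, List.not_mem_nil,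
      or_false, forall_eq_or_imp, forall_eq, ev] at hv
    exact pat71_9 hph hp hr (by omega) (by omega) (by omega) (by omega) (by omega) (by omega) hD hd

end Pool.Agent.helper75.MS
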