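import Pool.Agent.helper75.MS.Kro

/-! decision trees and their checker -/

namespace Pool.Agent.helper75.MS

open Finset

/-- decision trees -/
inductive Tree : Type
  | node (A B : ℕ) (l r : Tree) : Tree
  | viol (q : ℕ) (c : List ℕ) (cs : List ℕ) : Tree
  | sol (k : ℕ) (cs : List ℕ) : Tree
  | bot (c : ℕ) : Tree

/-- sum of the first `n` entries -/
def sm (n : ℕ) (j : List ℕ) : ℕ := ((List.range n).map fun i => j.getD i 0).sum

theorem sm_eq (n : ℕ) (j : List ℕ) : sm n j = ∑ i ∈ range n, j.getD i 0 := by
  unfold sm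
  induction n with
  | zero => simp
  | succ n ih => rw [List.range_succ, List.map_append, List.sum_append, ih, Finset.sum_range_succ]; simp

/-- all entries are at most `m` -/
def small (m : ℕ) (l : List ℕ) : Bool := List.rec true (fun a _ ih => Nat.ble a m && ih) l

theorem small_cons {m a : ℕ} {l : List ℕ} (h : small m (a :: l) = true) :
    a ≤ m ∧ small m l = true := by
  have h' : (Nat.ble a m && small m l) = true := h
  rw [Bool.and_eq_true] at h'
  exact ⟨Nat.le_of_ble_eq_true h'.1, h'.2⟩

theorem small_getD {m : ℕ} : ∀ (l : List ℕ) (i : ℕ), small m l = true → l.getD i 0 ≤ m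
  | [], i, _ => by simp
  | a :: l, 0, h => by simpa using (small_cons h).1
  | a :: l, i + 1, h => by simpa using small_getD l i (small_cons h).2

/-- coefficient list of the `i`-th convolution -/
def cl (n : ℕ) (j : List ℕ) (i : ℕ) : List ℕ :=
  (List.range (n - 1)).map fun s => j.getD ((i + n - s) % n) 0

/-- validity of the table of the `j` -/
def tabOK (n : ℕ) (tab : List (List ℕ × List ℕ)) : Prop :=
  ∀ e ∈ tab, small 4 e.1 = true ∧ e.2.length = n ∧ 0 < sm n e.1 ∧ sm n e.1 < 4 * n ∧
    ∀ i < n, e.2.getD i 0 = K (cl n e.1 i)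

/-- the loop over the `2 n` carry inequalities -/
def loop (ctx : List (ℕ × ℕ)) : List ℕ → ℕ → List ℕ → List ℕ → Bool
  | [], _, _, _ => true
  | r :: rs, prev, c :: cs, x :: y :: xs =>
    proves ctx (c * 8589934593) (prev + 18446744073709551616 * r) x &&
      (proves ctx (prev + 18446744073709551616 * r + 1) ((c + 1) * 8589934593) y &&
        loop ctx rs c cs xs)
  | _ :: _, _, [], _ => false
  | _ :: _, _, _ :: _, [] => false
  | _ :: _, _, _ :: _, [_] => false

/-- the pair of inequalities at one place -/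
def Two (e : List ℕ) (c prev : ℕ) (l : List ℕ) : Prop :=
  ev [c, 2 * c] e ≤ ev (prev :: 0 :: l) e ∧
    ev ((prev + 1) :: 0 :: l) e ≤ ev [c + 1, 2 * (c + 1)] e

theorem K_two (c : ℕ) : K [c, 2 * c] = c * 8589934593 := by simp only [K]; omega

theorem K_cons2 (a : ℕ) (l : List ℕ) : K (a :: 0 :: l) = a + 18446744073709551616 * K l := by
  simp only [K]; ring

theorem Bd.two {c : ℕ} (hc : c ≤ 1001) : Bd 4095 [c, 2 * c] := by
  intro x hx; simp at hx; omega

theorem Bd.cons2 {a : ℕ} {l : List ℕ} (ha : a ≤ 4095) (hl : Bd 4 l) : Bd 4095 (a :: 0 :: l) := by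
  intro x hx
  simp only [List.mem_cons] at hx
  rcases hx with rfl | rfl | hx
  · exact ha
  · omega
  · exact le_trans (hl x hx) (by omega)

theorem loop_sound {e : List ℕ} {ctx : List (ℕ × ℕ)} (hs : Sat (1 :: e) ctx) :
    ∀ (rs : List ℕ) (prev : ℕ) (cs xs : List ℕ), loop ctx rs prev cs xs = true →
      prev ≤ 1000 → small 1000 cs = true → ∀ i < rs.length, ∀ l : List ℕ, Bd 4 l →
      K l = rs.getD i 0 → Two (1 :: e) (cs.getD i 0) ((prev :: cs).getD i 0) l
  | [], _, _, _, _, _, _, i, hi, _, _, _ => by simp at hi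
  | r :: rs, prev, c :: cs, x :: y :: xs, h, hp, hc, i, hi, l, hl, hK => by
    simp only [loop, Bool.and_eq_true] at h
    obtain ⟨h1, h2, h3⟩ := h
    obtain ⟨hc1, hc2⟩ := small_cons hc
    cases i with
    | zero =>
      simp only [List.getD_cons_zero] at hK ⊢
      constructor
      · apply proves_sound (Bd.two (by omega)) (Bd.cons2 (by omega) hl) _ hs
        · exact x
        · rw [K_two, K_cons2, hK]; exact h1
      · apply proves_sound (Bd.cons2 (by omega) hl) (Bd.two (by omega)) _ hs
        · exact y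
        · rw [K_two, K_cons2, hK, show prev + 1 + 18446744073709551616 * r =
            prev + 18446744073709551616 * r + 1 by ring]
          exact h2
    | succ i =>
      simp only [List.getD_cons_succ, List.length_cons] at hK hi ⊢
      have := loop_sound hs rs c cs xs h3 hc1 hc2 i (by omega) l hl hK
      exact this
  | _ :: _, _, [], _, h, _, _, _, _, _, _, _ => by simp [loop] at h
  | _ :: _, _, _ :: _, [], h, _, _, _, _, _, _, _ => by simp [loop] at h
  | _ :: _, _, _ :: _, [_], h, _, _, _, _, _, _, _ => by simp [loop] at h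

/-- check that the leaf is a violation -/
def violC (n k L : ℕ) (e : List ℕ × List ℕ) (ctx : List (ℕ × ℕ)) (c cs : List ℕ) : Bool :=
  small 1000 c && (Nat.ble (n + sm n c + 1) (k * sm n e.1 + L) &&
    loop ctx e.2 (c.getD (n - 1) 0) c cs)

/-- prove a list of inequalities -/
def provesAll (ctx : List (ℕ × ℕ)) : List (List ℕ × List ℕ) → List ℕ → Bool
  | [], _ => true
  | _ :: _, [] => false
  | v :: vs, c :: cs => (small 4095 v.1 && (small 4095 v.2 && proves ctx (K v.1) (K v.2) c)) &&
      provesAll ctx vs cs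

theorem small_Bd {m : ℕ} : ∀ {l : List ℕ}, small m l = true → Bd m l
  | [], _ => fun x hx => by simp at hx
  | a :: l, h => fun x hx => by
    obtain ⟨h1, h2⟩ := small_cons h
    rcases List.mem_cons.1 hx with rfl | hx
    · exact h1
    · exact small_Bd h2 x hx

theorem provesAll_sound {e : List ℕ} {ctx : List (ℕ × ℕ)} (hs : Sat (1 :: e) ctx) :
    ∀ (vs : List (List ℕ × List ℕ)) (cs : List ℕ), provesAll ctx vs cs = true →
      ∀ v ∈ vs, ev v.1 (1 :: e) ≤ ev v.2 (1 :: e)
  | [], _, _ => by simp
  | _ :: _, [], h => by simp [provesAll] at h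
  | v :: vs, c :: cs, h => by
    simp only [provesAll, Bool.and_eq_true] at h
    obtain ⟨⟨h1, h2, h3⟩, h4⟩ := h
    intro w hw
    rcases List.mem_cons.1 hw with rfl | hw
    · exact proves_sound (small_Bd h1) (small_Bd h2) h3 hs
    · exact provesAll_sound hs vs cs h4 w hw

/-- the checker -/
noncomputable def check (n k L : ℕ) (tab : List (List ℕ × List ℕ)) (pats : List (List (List ℕ × List ℕ)))
    (T : Tree) : List (ℕ × ℕ) → Bool :=
  Tree.rec
    (fun A B _ _ ihl ihr ctx => okd 16 A && (okd 16 B && (ihl ((A, B) :: ctx) &&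
      ihr ((Nat.succ B, A) :: ctx))))
    (fun q c cs ctx => Nat.ble (q + 1) tab.length && violC n k L (tab.getD q ([], [])) ctx c cs)
    (fun q cs ctx => Nat.ble (q + 1) pats.length && provesAll ctx (pats.getD q []) cs)
    (fun c ctx => refute ctx c) T

/-- the vector of values -/
def env (n h : ℕ) (D : ℕ → ℕ) : List ℕ := h :: (List.range (n - 1)).map D

theorem ev_map (m : ℕ) (f g : ℕ → ℕ) :
    ev ((List.range m).map f) ((List.range m).map g) = ∑ s ∈ range m, f s * g s := by
  induction m generalizing f g with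
  | zero => simp [ev]
  | succ m ih =>
    rw [List.range_succ_eq_map, List.map_cons, List.map_cons, List.map_map, List.map_map, ev,
      ih, Finset.sum_range_succ']
    simp only [Function.comp]
    ring

theorem viol_sound {n k L p h : ℕ} {D : ℕ → ℕ} (hn : 1 < n) (hp : p = 2 * h + 1) (hp5 : 5 ≤ p)
    (hD : D (n - 1) = 0) (H : NV n k L p D) {tab : List (List ℕ × List ℕ)} (ht : tabOK n tab)
    {ctx : List (ℕ × ℕ)} (hs : Sat (1 :: env n h D) ctx) {q : ℕ} (hq : q < tab.length)
    {c cs : List ℕ} (hc : violC n k L (tab.getD q ([], [])) ctx c cs = true) : False := by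
  obtain ⟨t1, t2, t3, t4, t5⟩ := ht (tab.getD q ([], [])) (by
    rw [List.getD_eq_getElem _ _ hq]; exact List.getElem_mem _)
  generalize tab.getD q ([], []) = e at *
  simp only [violC, Bool.and_eq_true] at hc
  obtain ⟨h1, h2, h3⟩ := hc
  have h2' := Nat.le_of_ble_eq_true h2
  have hlast : c.getD (n - 1) 0 ≤ 1000 := small_getD c _ h1
  have hloop := loop_sound hs _ _ _ _ h3 hlast h1
  have hcl : ∀ i, Bd 4 (cl n e.1 i) := by
    intro i x hx
    unfold cl at hx
    obtain ⟨s, _, rfl⟩ := List.mem_map.1 hx
    exact small_getD _ _ t1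
  have hprev : ∀ i < n, (c.getD (n - 1) 0 :: c).getD i 0 = c.getD ((i + n - 1) % n) 0 := by
    intro i hi
    cases i with
    | zero =>
      rw [List.getD_cons_zero, Nat.zero_add, Nat.mod_eq_of_lt (by omega)]
    | succ i =>
      rw [List.getD_cons_succ, show i + 1 + n - 1 = i + n by omega, Nat.add_mod_right,
        Nat.mod_eq_of_lt (by omega)]
  have hcv : ∀ i < n, ev (cl n e.1 i) ((List.range (n - 1)).map D) =
      cv n (fun i => e.1.getD i 0) D i := by
    intro i _
    unfold cl cv
    rw [ev_map]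
    conv_rhs => rw [show range n = range ((n - 1) + 1) by congr 1; omega]
    rw [Finset.sum_range_succ, hD, Nat.mul_zero, Nat.add_zero]
  rw [sm_eq] at t3 t4 h2'
  rw [sm_eq] at h2'
  have key := H (fun i => e.1.getD i 0) (fun i => c.getD i 0) t3
    (fun i _ => lt_of_le_of_lt (small_getD e.1 i t1) (by omega))
    (lt_of_lt_of_le t4 (by rw [mul_comm]; exact Nat.mul_le_mul_left _ (by omega)))
    (fun i hi => by
      have := (hloop i (by omega) (cl n e.1 i) (hcl i) (t5 i hi).symm).1
      simp only [env, ev, hprev i hi, hcv i hi] at this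
      rw [hp]
      linarith)
    (fun i hi => by
      have := (hloop i (by omega) (cl n e.1 i) (hcl i) (t5 i hi).symm).2
      simp only [env, ev, hprev i hi, hcv i hi] at this
      rw [hp]
      linarith)
  omega

theorem check_sound {n k L p h : ℕ} {D : ℕ → ℕ} (hn : 1 < n) (hp : p = 2 * h + 1) (hp5 : 5 ≤ p)
    (hD : D (n - 1) = 0) (H : NV n k L p D) {tab : List (List ℕ × List ℕ)} (ht : tabOK n tab)
    (pats : List (List (List ℕ × List ℕ))) :
    ∀ (T : Tree) (ctx : List (ℕ × ℕ)), Sat (1 :: env n h D) ctx →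
      check n k L tab pats T ctx = true →
      ∃ q < pats.length, ∀ v ∈ pats.getD q [], ev v.1 (1 :: env n h D) ≤ ev v.2 (1 :: env n h D) := by
  intro T
  induction T with
  | node A B l r ihl ihr =>
    intro ctx hs hc
    have h' : (okd 16 A && (okd 16 B && (check n k L tab pats l ((A, B) :: ctx) &&
      check n k L tab pats r ((Nat.succ B, A) :: ctx)))) = true := hc
    simp only [Bool.and_eq_true] at h'
    obtain ⟨h1, h2, h3, h4⟩ := h'
    rcases split_sound (e := env n h D) h1 h2 with h5 | h5
    · exact ihl _ (hs.cons h5) h3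
    · exact ihr _ (hs.cons h5) h4
  | viol q c cs =>
    intro ctx hs hc
    exfalso
    have h' : (Nat.ble (q + 1) tab.length &&
      violC n k L (tab.getD q ([], [])) ctx c cs) = true := hc
    rw [Bool.and_eq_true] at h'
    exact viol_sound hn hp hp5 hD H ht hs (Nat.le_of_ble_eq_true h'.1) h'.2
  | sol q cs =>
    intro ctx hs hc
    have h' : (Nat.ble (q + 1) pats.length && provesAll ctx (pats.getD q []) cs) = true := hc
    rw [Bool.and_eq_true] at h'
    exact ⟨q, Nat.le_of_ble_eq_true h'.1, provesAll_sound hs _ _ h'.2⟩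
  | bot c =>
    intro ctx hs hc
    exact absurd (refute_sound (show refute ctx c = true from hc) hs) (by simp)

end Pool.Agent.helper75.MS
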