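import Pool.Agent.helper75.MS.Chk

/-! reduction of the classification to digit vectors with last digit `0` -/

namespace Pool.Agent.helper75.MS

open Finset

/-- the conclusion -/
def Concl (p n d : ℕ) : Prop := ∃ i k : ℕ, 0 < k ∧ Odd (n / Nat.gcd n k) ∧
  ∃ e : ℕ, (e = (p ^ (2 * k) + 1) / 2 ∨ e = p ^ (2 * k) - p ^ k + 1) ∧
    (d ≡ e * p ^ i [MOD p ^ n - 1] ∨ d * e ≡ p ^ i [MOD p ^ n - 1])

/-- the digits of `x` -/
def dg (p x i : ℕ) : ℕ := x / p ^ i % p

theorem sum_dg {p : ℕ} (hp : 0 < p) : ∀ (n x : ℕ), x < p ^ n →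
    ∑ i ∈ range n, dg p x i * p ^ i = x := by
  intro n
  induction n with
  | zero => intro x hx; simp at hx; simp [hx]
  | succ n ih =>
    intro x hx
    rw [Finset.sum_range_succ']
    have h1 : x / p < p ^ n := by
      rw [Nat.div_lt_iff_lt_mul hp]; rwa [pow_succ] at hx
    have h2 := ih (x / p) h1
    have h3 : ∑ i ∈ range n, dg p x (i + 1) * p ^ (i + 1) =
        p * ∑ i ∈ range n, dg p (x / p) i * p ^ i := by
      rw [Finset.mul_sum]
      apply Finset.sum_congr rfl
      intro i _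
      unfold dg
      rw [Nat.div_div_eq_div_mul, ← pow_succ']
      ring
    rw [h3, h2]
    unfold dg
    simp only [pow_zero, Nat.div_one, mul_one]
    exact Nat.div_add_mod x p

theorem S_modEq (p x : ℕ) (hp : 2 < p) : x ≡ S p x [MOD p - 1] := by
  unfold S
  exact Nat.modEq_digits_sum (p - 1) p (by
    rw [Nat.mod_eq_sub_mod (by omega), show p - (p - 1) = 1 by omega,
      Nat.mod_eq_of_lt (by omega)]) x

theorem zero_digit {p n k L : ℕ} {D : ℕ → ℕ} (hp : 3 < p) (hn : 1 < n) (hk : 1 ≤ k)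
    (hkL : k + L ≤ n) (hL : n < 2 * L) (hlt : ∀ i < n, D i < p)
    (hs : ∑ i ∈ range n, D i = k * (p - 1) + 1) (H : NV n k L p D) : ∃ i < n, D i = 0 := by
  by_contra hcon
  push Not at hcon
  have hcv : ∀ i < n, cv n (fun t => if t = n - 1 then 0 else 1) D i + D ((i + 1) % n) =
      ∑ s ∈ range n, D s := by
    intro i hi
    unfold cv
    rw [← Finset.sum_erase_add (range n) _ (mem_range.2 (Nat.mod_lt (i + 1) (by omega : 0 < n))),
      ← Finset.sum_erase_add (range n) D (mem_range.2 (Nat.mod_lt (i + 1) (by omega : 0 < n)))]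
    have e1 : ∀ s < n, ((i + n - s) % n = n - 1 ↔ s = (i + 1) % n) := by
      intro s hs
      rcases Nat.lt_or_ge i s with h | h
      · rw [Nat.mod_eq_of_lt (by omega)]
        rcases Nat.lt_or_ge (i + 1) n with h2 | h2
        · rw [Nat.mod_eq_of_lt h2]; omega
        · omega
      · rw [show i + n - s = (i - s) + n by omega, Nat.add_mod_right, Nat.mod_eq_of_lt (by omega)]
        rcases Nat.lt_or_ge (i + 1) n with h2 | h2
        · rw [Nat.mod_eq_of_lt h2]; omega
        · rw [show i + 1 = n by omega, Nat.mod_self]; omega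
    beta_reduce
    rw [if_pos ((e1 _ (Nat.mod_lt _ (by omega))).2 rfl), Nat.zero_mul, Nat.add_zero]
    congr 1
    apply Finset.sum_congr rfl
    intro s hs
    rw [Finset.mem_erase, mem_range] at hs
    rw [if_neg (fun h => hs.1 ((e1 s hs.2).1 h)), Nat.one_mul]
  have hJ : ∑ i ∈ range n, (if i = n - 1 then 0 else 1) = n - 1 := by
    obtain ⟨m, rfl⟩ : ∃ m, n = m + 1 := ⟨n - 1, by omega⟩
    rw [Finset.sum_range_succ]
    simp only [Nat.add_sub_cancel, if_true, Nat.add_zero]
    rw [Finset.sum_congr rfl (g := fun _ => 1) (fun i hi => if_neg (by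
      have := mem_range.1 hi; omega))]
    simp
  obtain ⟨m, hm⟩ : ∃ m, k = m + 1 := ⟨k - 1, by omega⟩
  obtain ⟨q, hq⟩ : ∃ q, p = q + 1 := ⟨p - 1, by omega⟩
  have hsum : ∑ i ∈ range n, D i + m = k * p := by
    rw [hs, hm, hq]; simp only [Nat.add_sub_cancel]; ring
  have key := H (fun t => if t = n - 1 then 0 else 1) (fun _ => m) (by rw [hJ]; omega)
    (fun i _ => by split_ifs <;> omega)
    (by
      rw [hJ]
      have : n * 1 ≤ n * (p - 1) := Nat.mul_le_mul_left _ (by omega)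
      omega)
    (fun i hi => by
      have h1 := hcv i hi
      have h2 := hlt ((i + 1) % n) (Nat.mod_lt _ (by omega))
      have h3 : p * m + p = k * p := by rw [hm]; ring
      omega)
    (fun i hi => by
      have h1 := hcv i hi
      have h2 := hcon ((i + 1) % n) (Nat.mod_lt _ (by omega))
      have h3 : p * m + p = k * p := by rw [hm]; ring
      omega)
  rw [hJ] at key
  simp only [Finset.sum_const, card_range, smul_eq_mul] at key
  have h4 : k * (n - 1) + k = n * k := by
    obtain ⟨t, rfl⟩ : ∃ t, n = t + 1 := ⟨n - 1, by omega⟩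
    simp only [Nat.add_sub_cancel]; ring
  have h5 : n + n * m = n * k := by rw [hm]; ring
  omega

theorem exists_digits {p n d L : ℕ} (hp : 3 < p) (hn : 1 < n) (hL : n < 2 * L)
    (hd : Nat.Coprime d (p ^ n - 1)) (hd1 : d ≡ 1 [MOD p - 1])
    (hnd : ∀ i, ¬ d ≡ p ^ i [MOD p ^ n - 1]) (H : ∀ r, HS p n L (d * p ^ r)) :
    ∃ (k r : ℕ) (D : ℕ → ℕ), 1 ≤ k ∧ k + L ≤ n ∧ r < n ∧ (∀ i < n, D i < p) ∧ D (n - 1) = 0 ∧
      ∑ i ∈ range n, D i = k * (p - 1) + 1 ∧ NV n k L p D ∧
      (d : ZMod (p ^ n - 1)) * (p : ZMod (p ^ n - 1)) ^ r =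
        ((∑ i ∈ range n, D i * p ^ i : ℕ) : ZMod (p ^ n - 1)) := by
  have hp1 : 1 < p := by omega
  have hpn : 4 ≤ p ^ n := le_trans (by rw [pow_one]; exact hp : 4 ≤ p ^ 1)
    (Nat.pow_le_pow_right (by omega) (by omega))
  have hP : ((p : ZMod (p ^ n - 1))) ^ n = 1 := pow_eq_one_ZMod hp1
  set M := p ^ n - 1 with hM
  have hdvd : p - 1 ∣ M := by simpa using Nat.sub_dvd_pow_sub_pow p 1 n
  have hxlt : d % M < M := Nat.mod_lt _ (by omega)
  set x := d % M with hx
  have hsx : ∑ i ∈ range n, dg p x i * p ^ i = x := sum_dg (by omega) n x (by omega)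
  have hxd : (x : ZMod M) = (d : ZMod M) := by
    rw [ZMod.natCast_eq_natCast_iff']; simp [hx]
  have hdlt : ∀ i < n, dg p x i < p := fun i _ => Nat.mod_lt _ (by omega)
  -- digit sum of `x`
  have hSx : S p x = ∑ i ∈ range n, dg p x i := by
    rw [← S_sum hp1 n (dg p x) hdlt, hsx]
  have hx0 : 1 ≤ x := by
    by_contra hcon
    have h0 : d % M = 0 := by omega
    have h1 : M ∣ d := Nat.dvd_of_mod_eq_zero h0
    have h2 := Nat.Coprime.eq_one_of_dvd hd.symm h1
    omega
  have hpos : 0 < ∑ i ∈ range n, dg p x i := by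
    rcases Nat.eq_zero_or_pos (∑ i ∈ range n, dg p x i) with h | h
    · exfalso
      have h1 : ∑ i ∈ range n, dg p x i * p ^ i = 0 := by
        apply Finset.sum_eq_zero
        intro i hi
        rw [Finset.sum_eq_zero_iff.1 h i hi, Nat.zero_mul]
      omega
    · exact h
  have hmod : ∑ i ∈ range n, dg p x i ≡ 1 [MOD p - 1] := by
    rw [← hSx]
    refine (S_modEq p x (by omega)).symm.trans ?_
    have : x ≡ d [MOD p - 1] := (Nat.mod_modEq d M).of_dvd hdvd
    exact this.trans hd1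
  obtain ⟨k, hk⟩ : ∃ k, ∑ i ∈ range n, dg p x i = k * (p - 1) + 1 := by
    have h1 := (Nat.modEq_iff_dvd' (by omega : 1 ≤ ∑ i ∈ range n, dg p x i)).1 hmod.symm
    obtain ⟨k, hk⟩ := h1
    exact ⟨k, by rw [mul_comm]; omega⟩
  have hH0 : HS p n L d := by simpa using H 0
  have hkL : k + L ≤ n := by
    have h1 := hH0 1 (le_refl _) (by omega)
    rw [Nat.mul_one, ← hM, ← hx, hSx, hk, S_lt hp1 1 (by omega)] at h1
    have h2 : (k + L) * (p - 1) ≤ n * (p - 1) := by rw [Nat.add_mul]; omega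
    exact Nat.le_of_mul_le_mul_right h2 (by omega)
  have hk1 : 1 ≤ k := by
    by_contra hcon
    have hk0 : k = 0 := by omega
    rw [hk0, Nat.zero_mul, Nat.zero_add] at hk
    -- a single digit `1`
    obtain ⟨i, hi, hi0⟩ : ∃ i ∈ range n, dg p x i ≠ 0 := by
      by_contra hc
      push Not at hc
      rw [Finset.sum_eq_zero hc] at hk
      omega
    have h1 : dg p x i + ∑ t ∈ (range n).erase i, dg p x t = 1 := by
      rw [Finset.add_sum_erase _ _ hi]; exact hk
    have h2 : ∑ t ∈ (range n).erase i, dg p x t = 0 := by omega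
    have h3 : dg p x i = 1 := by omega
    have h4 : x = p ^ i := by
      rw [← hsx, ← Finset.add_sum_erase _ _ hi, h3, Nat.one_mul, Finset.sum_eq_zero, Nat.add_zero]
      intro t ht
      rw [Finset.sum_eq_zero_iff.1 h2 t ht, Nat.zero_mul]
    apply hnd i
    rw [← h4, hx]
    exact (Nat.mod_modEq d M).symm
  have hNV0 : NV n k L p (dg p x) := hH0.nv hp hn hd (dg p x)
    (by rw [← hM, hsx, hxd]) hk
  obtain ⟨i0, hi0, hz⟩ := zero_digit hp hn hk1 hkL hL hdlt hk hNV0
  have hr : n - 1 - i0 < n := by omega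
  have hsum : ∑ i ∈ range n, (p : ZMod M) ^ i * (dg p x ((i + n - (n - 1 - i0)) % n) : ZMod M) =
      (p : ZMod M) ^ (n - 1 - i0) * ∑ i ∈ range n, (p : ZMod M) ^ i * (dg p x i : ZMod M) :=
    sum_shift hP (fun i => (dg p x i : ZMod M)) hr
  have hval : (d : ZMod M) * (p : ZMod M) ^ (n - 1 - i0) =
      ((∑ i ∈ range n, dg p x ((i + n - (n - 1 - i0)) % n) * p ^ i : ℕ) : ZMod M) := by
    push_cast
    rw [Finset.sum_congr rfl fun i _ => mul_comm _ _, hsum, mul_comm, ← hxd]
    congr 1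
    conv_lhs => rw [← hsx]
    push_cast
    exact Finset.sum_congr rfl fun i _ => mul_comm _ _
  have hsum2 : ∑ i ∈ range n, dg p x ((i + n - (n - 1 - i0)) % n) = k * (p - 1) + 1 := by
    have := sum_shift (R := ℤ) (P := 1) (n := n) (one_pow n) (fun i => (dg p x i : ℤ)) hr
    simp only [one_pow, one_mul] at this
    rw [← hk]
    exact_mod_cast this
  have hcop : Nat.Coprime (d * p ^ (n - 1 - i0)) M := by
    apply Nat.Coprime.mul_left hd
    apply Nat.Coprime.pow_left
    have : Nat.Coprime p (p ^ n - 1) := by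
      have h1 : Nat.Coprime (p ^ n) (p ^ n - 1) := by
        have h2 : Nat.Coprime (p ^ n - 1 + 1) (p ^ n - 1) := by
          rw [Nat.coprime_self_add_left]; exact Nat.coprime_one_left _
        rwa [Nat.sub_add_cancel (by omega)] at h2
      exact Nat.Coprime.coprime_dvd_left (dvd_pow_self p (by omega)) h1
    exact this
  refine ⟨k, n - 1 - i0, fun i => dg p x ((i + n - (n - 1 - i0)) % n), hk1, hkL, hr,
    fun i _ => Nat.mod_lt _ (by omega), ?_, hsum2, ?_, hval⟩
  · show dg p x ((n - 1 + n - (n - 1 - i0)) % n) = 0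
    rw [show n - 1 + n - (n - 1 - i0) = i0 + n by omega, Nat.add_mod_right,
      Nat.mod_eq_of_lt hi0]
    exact hz
  · refine (H (n - 1 - i0)).nv hp hn hcop _ ?_ hsum2
    rw [← hM, ← hval]
    push_cast
    rfl

end Pool.Agent.helper75.MS
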