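import Mathlib

/-!
# Weil sums of power maps over finite fields: definitions (MP_c072aa_co)

`K` is a finite field with `q = p^n` elements, `d` is coprime to `q - 1`.
-/

namespace Pool.Agent.helper75.MS

open Finset

section
variable (p : ℕ) [Fact p.Prime] {K : Type} [Field K] [Fintype K] [DecidableEq K]
  [Algebra (ZMod p) K]

/-- `Tr (a x - x^d)` -/
noncomputable def T (d : ℕ) (a x : K) : ZMod p := Algebra.trace (ZMod p) K (a * x - x ^ d)

/-- the number of `x` with `Tr (a x - x^d) = c` -/
noncomputable def cnt (d : ℕ) (a : K) (c : ZMod p) : ℕ :=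
  (univ.filter fun x : K => T p d a x = c).card

/-- the integer Weil sum (equal to the complex one if `d ≡ 1 mod p - 1`) -/
noncomputable def w (d : ℕ) (a : K) : ℤ := (cnt p d a 0 : ℤ) - cnt p d a 1

/-- the Weil sum with respect to the additive character `ψ` of `ZMod p` with values in `L` -/
noncomputable def W {L : Type} [CommRing L] (ψ : AddChar (ZMod p) L) (d : ℕ) (a : K) : L :=
  ∑ x : K, ψ (T p d a x)

end

/-- the number of `t` with `l^d (t^d + (1-t)^d) = 1` -/
def V {K : Type} [Field K] [Fintype K] [DecidableEq K] (d : ℕ) (l : K) : ℕ :=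
  (univ.filter fun t : K => l ^ d * (t ^ d + (1 - t) ^ d) = 1).card

end Pool.Agent.helper75.MS
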