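import Mathlib

/-! digit sums and the predicate `HS` -/

namespace Pool.Agent.helper75.MS

/-- digit sum -/
def S (p x : ℕ) : ℕ := (Nat.digits p x).sum

theorem S_add {p : ℕ} (hp : 1 < p) (r m : ℕ) (hr : r < p) : S p (r + p * m) = r + S p m := by
  unfold S
  by_cases h : r ≠ 0 ∨ m ≠ 0
  · rw [Nat.digits_add p hp r m hr h]; simp
  · push Not at h
    obtain ⟨rfl, rfl⟩ := h
    simp

theorem S_lt {p : ℕ} (hp : 1 < p) (r : ℕ) (hr : r < p) : S p r = r := by
  have := S_add hp r 0 hr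
  simpa [S] using this

/-- the consequence of `p^L ∣ w` for digit sums -/
def HS (p n L d : ℕ) : Prop := ∀ j, 1 ≤ j → j ≤ p ^ n - 2 →
  S p ((d * j) % (p ^ n - 1)) + L * (p - 1) ≤ S p j + n * (p - 1)

/-- key step: from a product congruence to the digit sum inequality -/
theorem HS.apply {p n L d j x : ℕ} (H : HS p n L d)
    (hd : Nat.Coprime d (p ^ n - 1)) (hj : 1 ≤ j) (hj' : j ≤ p ^ n - 2) (hx : x ≤ p ^ n - 1)
    (h : ((d * j : ℕ) : ZMod (p ^ n - 1)) = (x : ZMod (p ^ n - 1))) (hM : 2 ≤ p ^ n - 1):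
    S p x + L * (p - 1) ≤ S p j + n * (p - 1) := by
  have h1 := (ZMod.natCast_eq_natCast_iff' _ _ _).1 h
  have h2 := H j hj hj'
  rcases Nat.lt_or_ge x (p ^ n - 1) with hlt | hge
  · rwa [h1, Nat.mod_eq_of_lt hlt] at h2
  · exfalso
    have hx2 : x = p ^ n - 1 := le_antisymm hx hge
    rw [hx2, Nat.mod_self] at h1
    have h3 : (p ^ n - 1) ∣ d * j := Nat.dvd_of_mod_eq_zero h1
    have h4 : (p ^ n - 1) ∣ j := (Nat.Coprime.symm hd).dvd_of_dvd_mul_left h3
    have := Nat.le_of_dvd hj h4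
    omega

theorem pow_eq_one_ZMod {p n : ℕ} (hp : 1 < p) : ((p : ZMod (p ^ n - 1))) ^ n = 1 := by
  have h : ((p ^ n - 1 + 1 : ℕ) : ZMod (p ^ n - 1)) = 1 := by simp
  rw [Nat.sub_add_cancel (Nat.one_le_pow _ _ (by omega))] at h
  exact_mod_cast h

theorem lt_step {p a m k : ℕ} (_hp : 1 < p) (ha : a < p) (hm : m < p ^ k) :
    a + p * m < p ^ (k + 1) := by
  have h1 : p * (m + 1) ≤ p * p ^ k := Nat.mul_le_mul_left _ hm
  have h2 : p ^ (k + 1) = p * p ^ k := by ring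
  rw [h2]; linarith [Nat.mul_add p m 1]

end Pool.Agent.helper75.MS
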