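import Pool.Agent.helper75.MS.Cls

/-! from patterns to the conclusion -/

namespace Pool.Agent.helper75.MS

open Finset

theorem sat_base {e : List ℕ} : ∀ (B : List (List ℕ × List ℕ)),
    (∀ v ∈ B, small 4095 v.1 = true ∧ small 4095 v.2 = true) →
    (∀ v ∈ B, ev v.1 e ≤ ev v.2 e) → Sat e (B.map fun v => (K v.1, K v.2)) := by
  intro B h1 h2 P hP
  obtain ⟨v, hv, rfl⟩ := List.mem_map.1 hP
  exact ⟨v.1, v.2, fun x hx => le_trans (small_Bd (h1 v hv).1 x hx) (by omega),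
    fun x hx => le_trans (small_Bd (h1 v hv).2 x hx) (by omega), rfl, rfl, h2 v hv⟩

/-- conclusion of type A -/
theorem concl_A {p n d r t k e : ℕ} (hp : 3 < p) (hr : r < n)
    {v : ZMod (p ^ n - 1)}
    (hd : (d : ZMod (p ^ n - 1)) * (p : ZMod (p ^ n - 1)) ^ r = v)
    (hv : v = (p : ZMod (p ^ n - 1)) ^ t * (e : ZMod (p ^ n - 1)))
    (hk : 0 < k) (ho : Odd (n / Nat.gcd n k))
    (he : e = (p ^ (2 * k) + 1) / 2 ∨ e = p ^ (2 * k) - p ^ k + 1) : Concl p n d := by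
  refine ⟨t + (n - r), k, hk, ho, e, he, Or.inl ?_⟩
  rw [← ZMod.natCast_eq_natCast_iff]
  have hP : ((p : ZMod (p ^ n - 1))) ^ n = 1 := pow_eq_one_ZMod (by omega)
  have h1 : (p : ZMod (p ^ n - 1)) ^ r * (p : ZMod (p ^ n - 1)) ^ (n - r) = 1 := by
    rw [← pow_add, show r + (n - r) = n by omega, hP]
  push_cast
  calc (d : ZMod (p ^ n - 1)) = ((d : ZMod (p ^ n - 1)) * (p : ZMod (p ^ n - 1)) ^ r) *
        (p : ZMod (p ^ n - 1)) ^ (n - r) := by rw [mul_assoc, h1, mul_one]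
    _ = _ := by rw [hd, hv, pow_add]; ring

/-- conclusion of type B -/
theorem concl_B {p n d r t k e : ℕ} (hp : 3 < p) (hr : r < n)
    {v : ZMod (p ^ n - 1)}
    (hd : (d : ZMod (p ^ n - 1)) * (p : ZMod (p ^ n - 1)) ^ r = v)
    (hv : v * (e : ZMod (p ^ n - 1)) = (p : ZMod (p ^ n - 1)) ^ t)
    (hk : 0 < k) (ho : Odd (n / Nat.gcd n k))
    (he : e = (p ^ (2 * k) + 1) / 2 ∨ e = p ^ (2 * k) - p ^ k + 1) : Concl p n d := by
  refine ⟨t + (n - r), k, hk, ho, e, he, Or.inr ?_⟩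
  rw [← ZMod.natCast_eq_natCast_iff]
  have hP : ((p : ZMod (p ^ n - 1))) ^ n = 1 := pow_eq_one_ZMod (by omega)
  have h1 : (p : ZMod (p ^ n - 1)) ^ r * (p : ZMod (p ^ n - 1)) ^ (n - r) = 1 := by
    rw [← pow_add, show r + (n - r) = n by omega, hP]
  push_cast
  calc (d : ZMod (p ^ n - 1)) * (e : ZMod (p ^ n - 1)) =
        ((d : ZMod (p ^ n - 1)) * (p : ZMod (p ^ n - 1)) ^ r) * (e : ZMod (p ^ n - 1)) *
        (p : ZMod (p ^ n - 1)) ^ (n - r) := by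
          linear_combination -((d : ZMod (p ^ n - 1)) * (e : ZMod (p ^ n - 1))) * h1
    _ = _ := by rw [hd, hv, pow_add]

theorem geom_eq {p h : ℕ} (hp : p = 2 * h + 1) (m : ℕ) :
    2 * (h * ∑ i ∈ range m, p ^ i) + 1 = p ^ m := by
  induction m with
  | zero => simp
  | succ m ih =>
    rw [Finset.sum_range_succ, pow_succ]
    calc 2 * (h * (∑ i ∈ range m, p ^ i + p ^ m)) + 1
        = (2 * (h * ∑ i ∈ range m, p ^ i) + 1) + 2 * h * p ^ m := by ring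
      _ = p ^ m + 2 * h * p ^ m := by rw [ih]
      _ = p ^ m * (2 * h + 1) := by ring
      _ = p ^ m * p := by rw [← hp]

/-- the number `(p^(2k)+1)/2` in terms of `h` -/
theorem half_eq {p h : ℕ} (hp : p = 2 * h + 1) (k : ℕ) :
    (p ^ (2 * k) + 1) / 2 = 1 + h * ∑ i ∈ range (2 * k), p ^ i := by
  have h1 := geom_eq hp (2 * k)
  omega

theorem cast_e1 {p h : ℕ} {R : Type} [CommRing R] (hp : p = 2 * h + 1) (k : ℕ) :
    (((p ^ (2 * k) + 1) / 2 : ℕ) : R) = 1 + (h : R) * ∑ i ∈ range (2 * k), (p : R) ^ i := by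
  rw [half_eq hp]; push_cast; ring

theorem cast_e2 {p : ℕ} {R : Type} [CommRing R] (hp : 0 < p) (k : ℕ) :
    ((p ^ (2 * k) - p ^ k + 1 : ℕ) : R) = (p : R) ^ (2 * k) - (p : R) ^ k + 1 := by
  rw [Nat.cast_add, Nat.cast_sub (Nat.pow_le_pow_right hp (by omega))]
  push_cast; ring

theorem cast_h {p h : ℕ} {R : Type} [CommRing R] (hp : p = 2 * h + 1) :
    (p : R) = 2 * (h : R) + 1 := by
  have := congrArg (Nat.cast (R := R)) hp
  push_cast at this
  exact this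

end Pool.Agent.helper75.MS
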