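import Pool.Agent.helper75.MS.Cyc

/-! a verified checker for decision trees with Farkas certificates (linear forms with natural
coefficients, packed into natural numbers in base `2 ^ 32`) -/

namespace Pool.Agent.helper75.MS

open Finset

/-- value of a linear form (list of coefficients) on a list of values -/
def ev : List ℕ → List ℕ → ℕ
  | [], _ => 0
  | _ :: _, [] => 0
  | a :: u, x :: e => a * x + ev u e

/-- sum of linear forms -/
def ladd : List ℕ → List ℕ → List ℕ
  | [], v => v
  | a :: u, [] => a :: u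
  | a :: u, b :: v => (a + b) :: ladd u v

/-- multiple of a linear form -/
def lsmul (k : ℕ) : List ℕ → List ℕ
  | [] => []
  | a :: u => (k * a) :: lsmul k u

theorem ev_ladd : ∀ u v e : List ℕ, ev (ladd u v) e = ev u e + ev v e
  | [], v, e => by simp [ladd, ev]
  | a :: u, [], e => by simp [ladd, ev]
  | a :: u, b :: v, [] => by simp [ladd, ev]
  | a :: u, b :: v, x :: e => by
    simp only [ladd, ev, ev_ladd u v e]; ring

theorem ev_lsmul (k : ℕ) : ∀ u e : List ℕ, ev (lsmul k u) e = k * ev u e
  | [], e => by simp [lsmul, ev]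
  | a :: u, [] => by simp [lsmul, ev]
  | a :: u, x :: e => by
    simp only [lsmul, ev, ev_lsmul k u e]; ring

/-- packing -/
def K : List ℕ → ℕ
  | [] => 0
  | a :: u => a + 4294967296 * K u

theorem K_ladd : ∀ u v : List ℕ, K (ladd u v) = K u + K v
  | [], v => by simp [ladd, K]
  | a :: u, [] => by simp [ladd, K]
  | a :: u, b :: v => by simp only [ladd, K, K_ladd u v]; ring

theorem K_lsmul (k : ℕ) : ∀ u : List ℕ, K (lsmul k u) = k * K u
  | [] => by simp [lsmul, K]
  | a :: u => by simp only [lsmul, K, K_lsmul k u]; ring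

/-- all entries at most `m` -/
def Bd (m : ℕ) (u : List ℕ) : Prop := ∀ x ∈ u, x ≤ m

theorem Bd.ladd {m m' : ℕ} : ∀ {u v : List ℕ}, Bd m u → Bd m' v → Bd (m + m') (ladd u v)
  | [], v, _, hv => fun x hx => le_trans (hv x (by simpa [MS.ladd] using hx)) (by omega)
  | a :: u, [], hu, _ => fun x hx => le_trans (hu x (by simpa [MS.ladd] using hx)) (by omega)
  | a :: u, b :: v, hu, hv => by
    intro x hx
    simp only [MS.ladd, List.mem_cons] at hx
    rcases hx with rfl | hx
    · have := hu a (by simp); have := hv b (by simp); omega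
    · exact Bd.ladd (fun x hx => hu x (by simp [hx])) (fun x hx => hv x (by simp [hx])) x hx

theorem Bd.lsmul {m k c : ℕ} (hk : k ≤ c) : ∀ {u : List ℕ}, Bd m u → Bd (c * m) (lsmul k u)
  | [], _ => fun x hx => by simp [MS.lsmul] at hx
  | a :: u, hu => by
    intro x hx
    simp only [MS.lsmul, List.mem_cons] at hx
    rcases hx with rfl | hx
    · exact Nat.mul_le_mul hk (hu a (by simp))
    · exact Bd.lsmul hk (fun x hx => hu x (by simp [hx])) x hx

theorem K_inj (e : List ℕ) : ∀ u v : List ℕ, Bd 4294967295 u → Bd 4294967295 v → K u = K v →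
    ev u e = ev v e := by
  intro u
  induction u generalizing e with
  | nil =>
    intro v
    induction v generalizing e with
    | nil => intro _ _ _; rfl
    | cons b v ih =>
      intro hu hv h
      have hb := hv b (by simp)
      simp only [K] at h
      have h1 : b = 0 := by omega
      have h2 : K v = 0 := by omega
      cases e with
      | nil => simp [ev]
      | cons x e =>
        have := ih e hu (fun x hx => hv x (by simp [hx])) (by simp [K, h2])
        simp only [ev] at this ⊢
        rw [← this, h1]; simp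
  | cons a u ih =>
    intro v hu hv h
    have ha := hu a (by simp)
    cases v with
    | nil =>
      simp only [K] at h
      have h1 : a = 0 := by omega
      have h2 : K u = 0 := by omega
      cases e with
      | nil => simp [ev]
      | cons x e =>
        have := ih e [] (fun x hx => hu x (by simp [hx])) (by intro x hx; simp at hx)
          (by simp [K, h2])
        simp only [ev] at this ⊢
        rw [this, h1]; simp
    | cons b v =>
      have hb := hv b (by simp)
      simp only [K] at h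
      have h1 : a = b := by omega
      have h2 : K u = K v := by omega
      cases e with
      | nil => simp [ev]
      | cons x e =>
        have := ih e v (fun x hx => hu x (by simp [hx])) (fun x hx => hv x (by simp [hx])) h2
        simp only [ev]
        rw [this, h1]

/-- a packed valid inequality -/
def Ok (e : List ℕ) (m A B : ℕ) : Prop :=
  ∃ a b : List ℕ, Bd m a ∧ Bd m b ∧ K a = A ∧ K b = B ∧ ev a e ≤ ev b e

theorem Ok.add {e : List ℕ} {m m' A B A' B' : ℕ} (h : Ok e m A B) (h' : Ok e m' A' B') :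
    Ok e (m + m') (A + A') (B + B') := by
  obtain ⟨a, b, h1, h2, h3, h4, h5⟩ := h
  obtain ⟨a', b', h1', h2', h3', h4', h5'⟩ := h'
  refine ⟨ladd a a', ladd b b', h1.ladd h1', h2.ladd h2', ?_, ?_, ?_⟩
  · rw [K_ladd, h3, h3']
  · rw [K_ladd, h4, h4']
  · rw [ev_ladd, ev_ladd]; omega

theorem Ok.smul {e : List ℕ} {m A B : ℕ} (k : ℕ) {c : ℕ} (hk : k ≤ c) (h : Ok e m A B) :
    Ok e (c * m) (k * A) (k * B) := by
  obtain ⟨a, b, h1, h2, h3, h4, h5⟩ := h
  refine ⟨lsmul k a, lsmul k b, h1.lsmul hk, h2.lsmul hk, ?_, ?_, ?_⟩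
  · rw [K_lsmul, h3]
  · rw [K_lsmul, h4]
  · rw [ev_lsmul, ev_lsmul]; exact Nat.mul_le_mul_left _ h5

theorem Ok.mono {e : List ℕ} {m m' A B : ℕ} (hm : m ≤ m') (h : Ok e m A B) : Ok e m' A B := by
  obtain ⟨a, b, h1, h2, h3⟩ := h
  exact ⟨a, b, fun x hx => le_trans (h1 x hx) hm, fun x hx => le_trans (h2 x hx) hm, h3⟩

theorem Ok.final {e : List ℕ} {m A B : ℕ} (hm : m + 65536 ≤ 4294967295) (h : Ok (1 :: e) m A B)
    (h1 : B < A) (h2 : A - B ≤ 65535) : False := by
  obtain ⟨a, b, h3, h4, h5, h6, h7⟩ := h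
  have h8 : K a = K (ladd b [A - B]) := by
    rw [K_ladd, h5, h6]; simp only [K]; omega
  have h9 := K_inj (1 :: e) a (ladd b [A - B]) (fun x hx => le_trans (h3 x hx) (by omega))
    (fun x hx => le_trans (Bd.ladd h4 (m' := 65535) (v := [A - B]) (by
      intro x hx; simp at hx; omega) x hx) (by omega)) h8
  rw [ev_ladd] at h9
  simp only [ev] at h9
  omega

/-- element of a list of pairs -/
def look (l : List (ℕ × ℕ)) : ℕ → ℕ × ℕ :=
  List.rec (fun _ => (0, 0)) (fun x _ ih k => Nat.rec x (fun k' _ => ih k') k) l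

/-- context: all packed inequalities are valid -/
def Sat (e : List ℕ) (ctx : List (ℕ × ℕ)) : Prop := ∀ P ∈ ctx, Ok e 4096 P.1 P.2

theorem Ok.zero (e : List ℕ) (m : ℕ) : Ok e m 0 0 :=
  ⟨[], [], fun x hx => by simp at hx, fun x hx => by simp at hx, rfl, rfl, le_refl _⟩

theorem look_sound {e : List ℕ} : ∀ (ctx : List (ℕ × ℕ)) (k : ℕ), Sat e ctx →
    Ok e 4096 (look ctx k).1 (look ctx k).2
  | [], k, _ => Ok.zero e _
  | x :: l, 0, h => h x (by simp)
  | x :: l, k + 1, h => look_sound l k (fun P hP => h P (by simp [hP]))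

theorem Sat.cons {e : List ℕ} {ctx : List (ℕ × ℕ)} {P : ℕ × ℕ} (h : Sat e ctx)
    (hv : Ok e 4096 P.1 P.2) : Sat e (P :: ctx) := by
  intro w hw
  rcases List.mem_cons.1 hw with rfl | hw
  · exact hv
  · exact h w hw

/-- final test -/
def fin (a b : ℕ) : Bool := Nat.ble (Nat.succ b) a && Nat.ble (Nat.sub a b) 65535

/-- run a certificate -/
def run (ctx : List (ℕ × ℕ)) (fuel : ℕ) : ℕ → ℕ → ℕ → Bool :=
  Nat.rec (fun _ _ _ => false) (fun _ ih x a b =>
    Nat.rec (fin a b) (fun _ _ => Prod.rec (fun A B =>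
      ih (Nat.div x 65536) (Nat.add a (Nat.mul (Nat.div (Nat.mod x 65536) 64) A))
        (Nat.add b (Nat.mul (Nat.div (Nat.mod x 65536) 64) B)))
      (look ctx (Nat.mod x 64))) x) fuel

theorem run_sound {e : List ℕ} {ctx : List (ℕ × ℕ)} (hs : Sat (1 :: e) ctx) :
    ∀ (fuel : ℕ) (x a b : ℕ), fuel ≤ 32 → Ok (1 :: e) ((32 - fuel) * 4194304) a b →
      run ctx fuel x a b = true → False := by
  intro fuel
  induction fuel with
  | zero => intro x a b _ _ h; exact absurd h (by simp [run])
  | succ fuel ih =>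
    intro x a b hf hok h
    cases x with
    | zero =>
      have h' : (Nat.ble (Nat.succ b) a && Nat.ble (Nat.sub a b) 65535) = true := h
      rw [Bool.and_eq_true] at h'
      have h1 := Nat.le_of_ble_eq_true h'.1
      have h2 := Nat.le_of_ble_eq_true h'.2
      exact hok.final (by omega) h1 h2
    | succ x =>
      have hl := look_sound ctx (Nat.mod (x + 1) 64) hs
      have h' : run ctx fuel (Nat.div (x + 1) 65536)
        (Nat.add a (Nat.mul (Nat.div (Nat.mod (x + 1) 65536) 64) (look ctx (Nat.mod (x + 1) 64)).1))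
        (Nat.add b (Nat.mul (Nat.div (Nat.mod (x + 1) 65536) 64) (look ctx (Nat.mod (x + 1) 64)).2))
        = true := h
      refine ih _ _ _ (by omega) ?_ h'
      have hk : Nat.div (Nat.mod (x + 1) 65536) 64 ≤ 1023 := by
        show (x + 1) % 65536 / 64 ≤ 1023
        omega
      exact (hok.add (hl.smul _ hk)).mono (by omega)

/-- refute a context -/
def refute (ctx : List (ℕ × ℕ)) (c : ℕ) : Bool := run ctx 32 c 0 0

theorem refute_sound {e : List ℕ} {ctx : List (ℕ × ℕ)} {c : ℕ} (h : refute ctx c = true)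
    (hs : Sat (1 :: e) ctx) : False :=
  run_sound hs 32 c 0 0 (le_refl _) (Ok.zero _ _) h

/-- the digits are at most `4095` -/
def okd (fuel : ℕ) : ℕ → Bool :=
  Nat.rec (fun _ => false) (fun _ ih x => Nat.rec true
    (fun _ _ => Nat.ble (Nat.mod x 4294967296) 4095 && ih (Nat.div x 4294967296)) x) fuel

theorem okd_sound : ∀ (fuel x : ℕ), okd fuel x = true → ∃ a : List ℕ, Bd 4095 a ∧ K a = x := by
  intro fuel
  induction fuel with
  | zero => intro x h; exact absurd h (by simp [okd])
  | succ fuel ih =>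
    intro x h
    cases x with
    | zero => exact ⟨[], fun x hx => by simp at hx, rfl⟩
    | succ x =>
      have h' : (Nat.ble (Nat.mod (x + 1) 4294967296) 4095 &&
        okd fuel (Nat.div (x + 1) 4294967296)) = true := h
      rw [Bool.and_eq_true] at h'
      obtain ⟨a, ha, hK⟩ := ih _ h'.2
      have h1 : (x + 1) % 4294967296 ≤ 4095 := Nat.le_of_ble_eq_true h'.1
      refine ⟨((x + 1) % 4294967296) :: a, ?_, ?_⟩
      · intro y hy
        rcases List.mem_cons.1 hy with rfl | hy
        · exact h1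
        · exact ha y hy
      · simp only [K, hK]
        show (x + 1) % 4294967296 + 4294967296 * ((x + 1) / 4294967296) = x + 1
        omega

theorem Ok.neg {e a b : List ℕ} {m : ℕ} (ha : Bd m a) (hb : Bd m b)
    (h : ¬ ev a (1 :: e) ≤ ev b (1 :: e)) : Ok (1 :: e) (m + 1) (K b + 1) (K a) := by
  refine ⟨ladd b [1], a, hb.ladd (by intro x hx; simp at hx; omega),
    fun x hx => le_trans (ha x hx) (by omega), ?_, rfl, ?_⟩
  · rw [K_ladd]; simp [K]
  · rw [ev_ladd]; simp only [ev]; omega

theorem split_sound {e : List ℕ} {A B : ℕ} (hA : okd 16 A = true) (hB : okd 16 B = true) :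
    Ok (1 :: e) 4096 A B ∨ Ok (1 :: e) 4096 (B + 1) A := by
  obtain ⟨a, ha, rfl⟩ := okd_sound _ _ hA
  obtain ⟨b, hb, rfl⟩ := okd_sound _ _ hB
  by_cases h : ev a (1 :: e) ≤ ev b (1 :: e)
  · exact Or.inl ⟨a, b, fun x hx => le_trans (ha x hx) (by omega),
      fun x hx => le_trans (hb x hx) (by omega), rfl, rfl, h⟩
  · exact Or.inr (Ok.neg ha hb h)

/-- the certificate proves the packed inequality `A ≤ B` -/
def proves (ctx : List (ℕ × ℕ)) (A B c : ℕ) : Bool := refute ((Nat.succ B, A) :: ctx) c

theorem proves_sound {e a b : List ℕ} {ctx : List (ℕ × ℕ)} {c : ℕ} (ha : Bd 4095 a)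
    (hb : Bd 4095 b) (h : proves ctx (K a) (K b) c = true) (hs : Sat (1 :: e) ctx) :
    ev a (1 :: e) ≤ ev b (1 :: e) := by
  by_contra hc
  exact refute_sound h (hs.cons (Ok.neg ha hb hc))

end Pool.Agent.helper75.MS
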