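import Pool.Agent.helper75.MS.C31
import Pool.Agent.helper75.MS.C41
import Pool.Agent.helper75.MS.C51
import Pool.Agent.helper75.MS.C52
import Pool.Agent.helper75.MS.C61
import Pool.Agent.helper75.MS.C62
import Pool.Agent.helper75.MS.C71
import Pool.Agent.helper75.MS.C72
import Pool.Agent.helper75.MS.C73
import Pool.Agent.helper75.MS.ValsOf
import Pool.Agent.helper31.MS.M4d
import Pool.Agent.helper31.MS.M5
import Pool.Agent.helper75.MS.M6b
import Pool.Agent.helper48.MS.M9a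
import Pool.Agent.helper29.MS.M9b
import Pool.Agent.helper29.MS.M9d
import Pool.Agent.helper30.MS.M9c

/-! assembly -/

namespace Pool.Agent.helper75.MS

open Finset

section
variable {p : ℕ} [Fact p.Prime] {F : Type} [Field F] [Fintype F] [DecidableEq F]
  [Algebra (ZMod p) F]

theorem cop_mul {p n d : ℕ} (hp : 3 < p) (hn : 0 < n) (hd : Nat.Coprime d (p ^ n - 1)) (r : ℕ) :
    Nat.Coprime (d * p ^ r) (p ^ n - 1) := by
  apply Nat.Coprime.mul_left hd
  apply Nat.Coprime.pow_left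
  have h0 : 0 < p ^ n := Nat.pow_pos (by omega)
  have h1 : Nat.Coprime (p ^ n) (p ^ n - 1) := by
    have h2 : Nat.Coprime (p ^ n - 1 + 1) (p ^ n - 1) := by
      rw [Nat.coprime_self_add_left]; exact Nat.coprime_one_left _
    rwa [Nat.sub_add_cancel (by omega)] at h2
  exact Nat.Coprime.coprime_dvd_left (dvd_pow_self p (by omega)) h1

theorem mod_mul {p d : ℕ} (hp : 3 < p) (hd1 : d ≡ 1 [MOD p - 1]) (r : ℕ) :
    d * p ^ r ≡ 1 [MOD p - 1] := by
  have h : p ≡ 1 [MOD p - 1] := by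
    have h1 : p - 1 + 1 ≡ 1 [MOD p - 1] := by simp
    rwa [Nat.sub_add_cancel (by omega)] at h1
  simpa using hd1.mul (h.pow r)

/-- divisibility of all the sums gives `HS` for all `d p^r` -/
theorem HS_all {n d L : ℕ} (hp : 3 < p) (hn : 0 < n) (hq : Fintype.card F = p ^ n)
    (hd : Nat.Coprime d (p ^ n - 1)) (hd1 : d ≡ 1 [MOD p - 1])
    (hL : ∀ a : F, (p : ℤ) ^ L ∣ w p d a) (r : ℕ) : HS p n L (d * p ^ r) := by
  intro j h1 h2
  exact digit_sum hp hn hq (cop_mul hp hn hd r) (mod_mul hp hd1 r)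
    (fun a => by rw [w_mul_pow]; exact hL a) j h1 h2

theorem odd_p (hp : 3 < p) : ∃ h, p = 2 * h + 1 := by
  obtain ⟨h, hh⟩ := (Fact.out : p.Prime).odd_of_ne_two (by omega)
  exact ⟨h, hh⟩

theorem class3 {d : ℕ} (hp : 3 < p) (hd : Nat.Coprime d (p ^ 3 - 1)) (hd1 : d ≡ 1 [MOD p - 1])
    (hnd : ∀ i, ¬ d ≡ p ^ i [MOD p ^ 3 - 1]) (H : ∀ r, HS p 3 2 (d * p ^ r)) : Concl p 3 d := by
  obtain ⟨h, hh⟩ := odd_p hp
  obtain ⟨k, r, D, h1, h2, h3, h4, h5, h6, h7, h8⟩ :=
    exists_digits hp (by norm_num) (by norm_num) hd hd1 hnd H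
  obtain rfl : k = 1 := by omega
  exact cls31 hh hp h3 h4 h5 h6 h7 h8

theorem class4 {d : ℕ} (hp : 3 < p) (hd : Nat.Coprime d (p ^ 4 - 1)) (hd1 : d ≡ 1 [MOD p - 1])
    (hnd : ∀ i, ¬ d ≡ p ^ i [MOD p ^ 4 - 1]) (H : ∀ r, HS p 4 3 (d * p ^ r)) : Concl p 4 d := by
  obtain ⟨h, hh⟩ := odd_p hp
  obtain ⟨k, r, D, h1, h2, h3, h4, h5, h6, h7, h8⟩ :=
    exists_digits hp (by norm_num) (by norm_num) hd hd1 hnd H
  obtain rfl : k = 1 := by omega
  exact cls41 hh hp h3 h4 h5 h6 h7 h8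

theorem class5 {d : ℕ} (hp : 3 < p) (hd : Nat.Coprime d (p ^ 5 - 1)) (hd1 : d ≡ 1 [MOD p - 1])
    (hnd : ∀ i, ¬ d ≡ p ^ i [MOD p ^ 5 - 1]) (H : ∀ r, HS p 5 3 (d * p ^ r)) : Concl p 5 d := by
  obtain ⟨h, hh⟩ := odd_p hp
  obtain ⟨k, r, D, h1, h2, h3, h4, h5, h6, h7, h8⟩ :=
    exists_digits hp (by norm_num) (by norm_num) hd hd1 hnd H
  have hk : k = 1 ∨ k = 2 := by omega
  rcases hk with rfl | rfl
  · exact cls51 hh hp h3 h4 h5 h6 h7 h8
  · exact cls52 hh hp h3 h4 h5 h6 h7 h8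

theorem class6 {d : ℕ} (hp : 3 < p) (hd : Nat.Coprime d (p ^ 6 - 1)) (hd1 : d ≡ 1 [MOD p - 1])
    (hnd : ∀ i, ¬ d ≡ p ^ i [MOD p ^ 6 - 1]) (H : ∀ r, HS p 6 4 (d * p ^ r)) : Concl p 6 d := by
  obtain ⟨h, hh⟩ := odd_p hp
  obtain ⟨k, r, D, h1, h2, h3, h4, h5, h6, h7, h8⟩ :=
    exists_digits hp (by norm_num) (by norm_num) hd hd1 hnd H
  have hk : k = 1 ∨ k = 2 := by omega
  rcases hk with rfl | rfl
  · exact cls61 hh hp h3 h4 h5 h6 h7 h8
  · exact cls62 hh hp h3 h4 h5 h6 h7 h8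

theorem class7 {d : ℕ} (hp : 3 < p) (hd : Nat.Coprime d (p ^ 7 - 1)) (hd1 : d ≡ 1 [MOD p - 1])
    (hnd : ∀ i, ¬ d ≡ p ^ i [MOD p ^ 7 - 1]) (H : ∀ r, HS p 7 4 (d * p ^ r)) : Concl p 7 d := by
  obtain ⟨h, hh⟩ := odd_p hp
  obtain ⟨k, r, D, h1, h2, h3, h4, h5, h6, h7, h8⟩ :=
    exists_digits hp (by norm_num) (by norm_num) hd hd1 hnd H
  have hk : k = 1 ∨ k = 2 ∨ k = 3 := by omega
  rcases hk with rfl | rfl | rfl
  · exact cls71 hh hp h3 h4 h5 h6 h7 h8
  · exact cls72 hh hp h3 h4 h5 h6 h7 h8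
  · exact cls73 hh hp h3 h4 h5 h6 h7 h8

/-- `n = 3`, explicit form -/
theorem class3' {d : ℕ} (hp : 3 < p) (hd : Nat.Coprime d (p ^ 3 - 1)) (hd1 : d ≡ 1 [MOD p - 1])
    (hnd : ∀ i, ¬ d ≡ p ^ i [MOD p ^ 3 - 1]) (H : ∀ r, HS p 3 2 (d * p ^ r)) :
    ∃ i e, (e = (p ^ 2 + 1) / 2 ∨ e = p ^ 2 - p + 1) ∧ d ≡ e * p ^ i [MOD p ^ 3 - 1] := by
  obtain ⟨h, hph⟩ := odd_p hp
  obtain ⟨k, r, D, h1, h2, h3, hlt, hD, hs, H, hd⟩ :=
    exists_digits hp (by norm_num) (by norm_num) hd hd1 hnd H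
  obtain rfl : k = 1 := by omega
  have fin : ∀ e : ℕ, ((∑ i ∈ range 3, D i * p ^ i : ℕ) : ZMod (p ^ 3 - 1)) = (e : ZMod (p ^ 3 - 1)) →
      d ≡ e * p ^ (3 - r) [MOD p ^ 3 - 1] := by
    intro e he
    rw [← ZMod.natCast_eq_natCast_iff]
    have hP : ((p : ZMod (p ^ 3 - 1))) ^ 3 = 1 := pow_eq_one_ZMod (by omega)
    have h1 : (p : ZMod (p ^ 3 - 1)) ^ r * (p : ZMod (p ^ 3 - 1)) ^ (3 - r) = 1 := by
      rw [← pow_add, show r + (3 - r) = 3 by omega, hP]
    push_cast
    calc (d : ZMod (p ^ 3 - 1)) = ((d : ZMod (p ^ 3 - 1)) * (p : ZMod (p ^ 3 - 1)) ^ r) *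
          (p : ZMod (p ^ 3 - 1)) ^ (3 - r) := by rw [mul_assoc, h1, mul_one]
      _ = _ := by rw [hd, he]
  simp only [Finset.sum_range_succ, Finset.sum_range_zero, zero_add] at hs
  have l0 := hlt 0 (by norm_num)
  have l1 := hlt 1 (by norm_num)
  have hD2 : D 2 = 0 := hD
  have hbase : ∀ v ∈ B31, ev v.1 (1 :: env 3 h D) ≤ ev v.2 (1 :: env 3 h D) := by
    intro v hv
    simp only [B31, List.mem_cons, List.not_mem_nil, or_false] at hv
    rcases hv with rfl | rfl | rfl | rfl | rfl | rfl | rfl <;>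
      simp only [ev, env, List.range_succ, List.range_zero, List.nil_append, List.cons_append,
        List.map_cons, List.map_nil, Nat.reduceSub] <;> omega
  obtain ⟨q, hq, hv⟩ := check_sound (by norm_num) hph (by omega) hD H tab31 P31 T31 _
    (sat_base B31 (by decide) hbase) check31
  simp only [env, List.range_succ, List.range_zero, List.nil_append, List.cons_append,
    List.map_cons, List.map_nil, Nat.reduceSub] at hv
  replace hq : q < 2 := hq
  interval_cases q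
  · simp only [P31, List.getD_cons_zero, List.getD_cons_succ, List.mem_cons, List.not_mem_nil,
      or_false, forall_eq_or_imp, forall_eq, ev] at hv
    refine ⟨3 - r, p ^ 2 - p + 1, Or.inr rfl, fin _ ?_⟩
    congr 1
    have e0 : D 0 = 1 := by omega
    have e1 : D 1 = 2 * h := by omega
    have e2 : D 2 = 0 := hD
    simp only [Finset.sum_range_succ, Finset.sum_range_zero, zero_add, e0, e1, e2]
    have h5 : p ^ 2 = 2 * h * p + p := by
      calc p ^ 2 = p * p := by ring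
        _ = (2 * h + 1) * p := by rw [← hph]
        _ = _ := by ring
    rw [h5]
    simp only [pow_zero, pow_one, mul_one, zero_mul, add_zero]
    omega
  · simp only [P31, List.getD_cons_zero, List.getD_cons_succ, List.mem_cons, List.not_mem_nil,
      or_false, forall_eq_or_imp, forall_eq, ev] at hv
    refine ⟨3 - r, (p ^ 2 + 1) / 2, Or.inl rfl, fin _ ?_⟩
    congr 1
    have e0 : D 0 = 1 + h := by omega
    have e1 : D 1 = h := by omega
    have e2 : D 2 = 0 := hD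
    simp only [Finset.sum_range_succ, Finset.sum_range_zero, zero_add, e0, e1, e2]
    have h5 : p ^ 2 = 2 * (h * p) + 2 * h + 1 := by
      calc p ^ 2 = p * p := by ring
        _ = (2 * h + 1) * p := by rw [← hph]
        _ = 2 * (h * p) + p := by ring
        _ = _ := by omega
    rw [h5]
    simp only [pow_zero, pow_one, mul_one, zero_mul, add_zero]
    omega

/-- the exceptional values for `n = 6` do not occur -/
theorem six_final {d : ℕ} (hp : 3 < p) (hq : Fintype.card F = p ^ 6)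
    (hd : Nat.Coprime d (p ^ 6 - 1)) (hd1 : d ≡ 1 [MOD p - 1]) (a b : ℤ)
    (hb0 : 0 < b) (hba : b < a) (hab : a + b = p) (hdiv : a ∣ (p : ℤ) ^ 3 + b)
    (hv : ∀ x : F, w p d x = 0 ∨ w p d x = (p : ℤ) ^ 3 * a ∨ w p d x = -(p : ℤ) ^ 3 * b)
    (hB : ∃ x : F, w p d x = -(p : ℤ) ^ 3 * b) : False := by
  have hpr : p.Prime := Fact.out
  have hpp : Prime (p : ℤ) := Nat.prime_iff_prime_int.1 hpr
  have hp0 : (0 : ℤ) < (p : ℤ) := by exact_mod_cast hpr.pos
  have hp3 : (0 : ℤ) < (p : ℤ) ^ 3 := by positivity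
  have hdvd36 : p ^ 3 - 1 ∣ p ^ 6 - 1 := by
    have := Nat.sub_dvd_pow_sub_pow (p ^ 3) 1 2
    simpa [← pow_mul] using this
  have hd3 : Nat.Coprime d (p ^ 3 - 1) := Nat.Coprime.coprime_dvd_right hdvd36 hd
  have hL : ∀ x : F, (p : ℤ) ^ 3 ∣ w p d x := by
    intro x
    rcases hv x with h | h | h <;> rw [h]
    · exact dvd_zero _
    · exact dvd_mul_right _ _
    · exact ⟨-b, by ring⟩
  have hH : ∀ r, HS p 3 2 (d * p ^ r) := fun r =>
    HS_six_three hpr hp (cop_mul hp (by norm_num) hd r) (mod_mul hp hd1 r)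
      (HS_all hp (by norm_num) hq hd hd1 hL r)
  by_cases hdeg : ∃ i, d ≡ p ^ i [MOD p ^ 3 - 1]
  · -- `d` is degenerate on the subfield
    obtain ⟨i, hi⟩ := hdeg
    have h1 : d * p ^ (2 * i) ≡ 1 [MOD p ^ 3 - 1] := by
      have h2 : d * p ^ (2 * i) ≡ p ^ i * p ^ (2 * i) [MOD p ^ 3 - 1] := hi.mul_right _
      refine h2.trans ?_
      rw [← pow_add, show i + 2 * i = 3 * i by ring, pow_mul]
      have h3 : p ^ 3 ≡ 1 [MOD p ^ 3 - 1] := by
        have h4 : p ^ 3 - 1 + 1 ≡ 1 [MOD p ^ 3 - 1] := by simp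
        rwa [Nat.sub_add_cancel (Nat.pow_pos hpr.pos)] at h4
      simpa using h3.pow i
    obtain ⟨x, hx⟩ := hB
    have h2 := w_lower (K := F) (m := 3) hp (by norm_num) (by rw [hq])
      (cop_mul hp (by norm_num) hd (2 * i)) h1 x
    rw [w_mul_pow, hx] at h2
    have hb1 : b ≤ 1 := by nlinarith
    obtain rfl : b = 1 := by omega
    have ha : a = p - 1 := by omega
    subst ha
    obtain ⟨c, hc⟩ := hdiv
    have h3 : ((p : ℤ) - 1) ∣ 2 := by
      refine ⟨c - ((p : ℤ) ^ 2 + p + 1), ?_⟩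
      linear_combination hc
    have h4 := Int.le_of_dvd (by norm_num) h3
    omega
  · push Not at hdeg
    obtain ⟨i, e, he, hde⟩ := class3' hp hd3 hd1 hdeg hH
    obtain ⟨E, _, _, _, _, _, _, hE⟩ := exists_subfield (p := p) (m := 3) (F := F) (by norm_num)
      (by rw [hq])
    have hodd := odd_count (E := E) hp hE hd3 hd1 he hde
    have hsum := sub_sum (E := E) (F := F) (m := 3) hp (by norm_num) hE (by rw [hq]) hd hd1
    have hpar : ∀ x : E, Odd (w p d (algebraMap E F x)) ↔ Odd (w p d x) :=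
      sub_parity (m := 3) hp (by norm_num) hE (by rw [hq]) hd hd1
    have hA0 : (p : ℤ) ^ 3 * a ≠ 0 := by
      have : 0 < (p : ℤ) ^ 3 * a := mul_pos hp3 (by omega)
      exact this.ne'
    have hB0 : -(p : ℤ) ^ 3 * b ≠ 0 := by
      have : 0 < (p : ℤ) ^ 3 * b := mul_pos hp3 hb0
      intro h; rw [neg_mul] at h; omega
    have hne : (p : ℤ) ^ 3 * a ≠ -(p : ℤ) ^ 3 * b := by
      intro h
      have : (p : ℤ) ^ 3 * (a + b) = 0 := by linear_combination h
      rcases mul_eq_zero.1 this with h | h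
      · omega
      · omega
    have s1 := sum_two (K := E) (f := fun x : E => w p d (algebraMap E F x)) hA0 hB0 hne
      (fun x => hv _) (fun x => x) rfl
    have s2 := sum_two (K := E) (f := fun x : E => w p d (algebraMap E F x)) hA0 hB0 hne
      (fun x => hv _) (fun x => if Odd x then 1 else 0) (by simp)
    beta_reduce at s1 s2
    rw [hsum] at s1
    have s3 : ∑ x : E, (if Odd (w p d (algebraMap E F x)) then (1 : ℤ) else 0) = (p : ℤ) ^ 2 := by
      have h1 : ((univ.filter fun x : E => Odd (w p d x)).card : ℤ) = (p : ℤ) ^ 2 := by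
        exact_mod_cast hodd
      rw [← h1, Finset.card_filter]
      push_cast
      apply Finset.sum_congr rfl
      intro x _
      by_cases hx : Odd (w p d x)
      · rw [if_pos hx, if_pos ((hpar x).2 hx)]
      · rw [if_neg hx, if_neg (fun h => hx ((hpar x).1 h))]
    rw [s3] at s2
    have hnA0 : (0 : ℤ) ≤ ((univ.filter fun x : E => w p d (algebraMap E F x) = (p : ℤ) ^ 3 * a).card : ℤ) :=
      Int.natCast_nonneg _
    have hnB0 : (0 : ℤ) ≤ ((univ.filter fun x : E => w p d (algebraMap E F x) = -(p : ℤ) ^ 3 * b).card : ℤ) :=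
      Int.natCast_nonneg _
    generalize ((univ.filter fun x : E => w p d (algebraMap E F x) = (p : ℤ) ^ 3 * a).card : ℤ) = nA at *
    generalize ((univ.filter fun x : E => w p d (algebraMap E F x) = -(p : ℤ) ^ 3 * b).card : ℤ) = nB at *
    have hpo : Odd (p : ℤ) := by
      have := hpr.odd_of_ne_two (by omega)
      exact_mod_cast this
    have hsum' : nA * a - nB * b = (p : ℤ) ^ 3 := by
      have h1 : (p : ℤ) ^ 3 * (nA * a - nB * b) = (p : ℤ) ^ 3 * (p : ℤ) ^ 3 := by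
        linear_combination -s1
      exact mul_left_cancel₀ hp3.ne' h1
    have ho3 : Odd ((p : ℤ) ^ 3) := hpo.pow
    rcases Int.even_or_odd a with hae | hao
    · -- `a` even, `b` odd
      have hbo : Odd b := by
        have : b = p - a := by omega
        rw [this]; exact hpo.sub_even hae
      have c1 : ¬ Odd ((p : ℤ) ^ 3 * a) := by
        rw [Int.not_odd_iff_even]; exact hae.mul_left _
      have c2 : Odd (-(p : ℤ) ^ 3 * b) := by
        rw [neg_mul]; exact (ho3.mul hbo).neg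
      rw [if_neg c1, if_pos c2] at s2
      have hnB : nB = (p : ℤ) ^ 2 := by linarith
      rw [hnB] at hsum'
      have h1 : nA * a = (p : ℤ) ^ 2 * (p + b) := by linear_combination hsum'
      have h2 : a ∣ (p : ℤ) ^ 2 * (2 * p) := by
        have h3 : a ∣ (p : ℤ) ^ 2 * (p + b) := ⟨nA, by rw [← h1]; ring⟩
        have h4 : (p : ℤ) ^ 2 * (2 * p) = (p : ℤ) ^ 2 * (p + b) + a * (p : ℤ) ^ 2 := by
          have : b = p - a := by omega
          rw [this]; ring
        rw [h4]; exact dvd_add h3 (dvd_mul_right _ _)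
      have hcop : IsCoprime a ((p : ℤ) ^ 3) := by
        apply IsCoprime.pow_right
        apply IsCoprime.symm
        rw [Prime.coprime_iff_not_dvd hpp]
        intro h
        have := Int.le_of_dvd (by omega) h
        omega
      have h3 : a ∣ 2 := by
        have h5 : a ∣ (p : ℤ) ^ 3 * 2 := by
          rw [show (p : ℤ) ^ 3 * 2 = (p : ℤ) ^ 2 * (2 * p) by ring]; exact h2
        exact hcop.dvd_of_dvd_mul_left h5
      have := Int.le_of_dvd (by norm_num) h3
      have hp4 : (3 : ℤ) < p := by exact_mod_cast hp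
      omega
    · -- `a` odd, `b` even
      have hbe : Even b := by
        have : b = p - a := by omega
        rw [this]; exact hpo.sub_odd hao
      have c1 : Odd ((p : ℤ) ^ 3 * a) := ho3.mul hao
      have c2 : ¬ Odd (-(p : ℤ) ^ 3 * b) := by
        rw [Int.not_odd_iff_even]; exact hbe.mul_left _
      rw [if_pos c1, if_neg c2] at s2
      have hnA : nA = (p : ℤ) ^ 2 := by linarith
      rw [hnA] at hsum'
      have h1 : nB * b = -((p : ℤ) ^ 2 * b) := by
        have : a = p - b := by omega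
        rw [this] at hsum'
        linear_combination -hsum'
      have h2 : 0 ≤ nB * b := mul_nonneg hnB0 hb0.le
      have h3 : 0 < (p : ℤ) ^ 2 * b := by positivity
      linarith

theorem main {d n : ℕ} (hp : 3 < p) (hn : 0 < n) (hn7 : n ≤ 7) (hq : Fintype.card F = p ^ n)
    (hd : Nat.Coprime d (p ^ n - 1))
    (h3 : (Set.range fun c : Fˣ => FF p d c).ncard = 3) : Concl p n d := by
  obtain ⟨hd1, A, B, hA, hB, hv, hA1, hB1⟩ := three_vals hp hq hn hd h3
  have V0 := vals_aux hp hq hn hd hd1 hA hB hv hA1 hB1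
  have hnd : ∀ i, ¬ d ≡ p ^ i [MOD p ^ n - 1] := by
    intro i hi
    obtain ⟨a, ha⟩ := hB1
    have := w_degenerate (K := F) hp hq hn hi a
    rw [ha] at this
    split_ifs at this
    · have h1 : (0 : ℤ) < (p : ℤ) ^ n := pow_pos (by exact_mod_cast (by omega : 0 < p)) _
      omega
    · omega
  have hdv : ∀ L : ℕ, ((p : ℤ) ^ L ∣ A ∧ (p : ℤ) ^ L ∣ B) → ∀ a : F, (p : ℤ) ^ L ∣ w p d a := by
    intro L h a
    rcases hv a with h1 | h1 | h1 <;> rw [h1]
    · exact dvd_zero _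
    · exact h.1
    · exact h.2
  have hcases : n = 1 ∨ n = 2 ∨ n = 3 ∨ n = 4 ∨ n = 5 ∨ n = 6 ∨ n = 7 := by omega
  rcases hcases with rfl | rfl | rfl | rfl | rfl | rfl | rfl
  · exact absurd (show d ≡ p ^ 0 [MOD p ^ 1 - 1] by simpa using hd1) (hnd 0)
  · exact V0.two.elim
  · exact class3 hp hd hd1 hnd (HS_all hp hn hq hd hd1 (hdv 2 (V0.odd (by decide))))
  · rcases V0.four with h | ⟨h1, h2, h4⟩
    · exact class4 hp hd hd1 hnd (HS_all hp hn hq hd hd1 (hdv 3 h))
    · exfalso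
      refine flats hp hq hd hd1 A B h1 h2 hv ?_
      have h5 : (univ.filter fun a : F => w p d a ≠ 0) =
          (univ.filter fun a : F => w p d a = A) ∪ (univ.filter fun a : F => w p d a = B) := by
        ext a
        simp only [mem_filter, mem_univ, true_and, mem_union]
        constructor
        · intro h
          rcases hv a with h1 | h1 | h1
          · exact absurd h1 h
          · exact Or.inl h1
          · exact Or.inr h1
        · rintro (h | h) <;> rw [h] <;> omega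
      rw [h5, Finset.card_union_of_disjoint, h4]
      rw [Finset.disjoint_left]
      intro a ha hb
      simp only [mem_filter, mem_univ, true_and] at ha hb
      omega
  · exact class5 hp hd hd1 hnd (HS_all hp hn hq hd hd1 (hdv 3 (V0.odd (by decide))))
  · rcases V0.six with h | ⟨a, b, hAa, hBb, h1, h2, h4, h5⟩
    · exact class6 hp hd hd1 hnd (HS_all hp hn hq hd hd1 (hdv 4 h))
    · exfalso
      subst hAa hBb
      exact six_final hp hq hd hd1 a b h1 h2 h4 h5 hv hB1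
  · exact class7 hp hd hd1 hnd (HS_all hp hn hq hd hd1 (hdv 4 (V0.odd (by decide))))

/-- divisibility for odd `n` -/
theorem main_odd {d n : ℕ} (hp : 3 < p) (hn : Odd n) (hq : Fintype.card F = p ^ n)
    (hd : Nat.Coprime d (p ^ n - 1))
    (h3 : (Set.range fun c : Fˣ => FF p d c).ncard = 3) (c : Fˣ) :
    ∃ z : ℤ, FF p d c + 1 = (p : ℂ) ^ ((n + 1) / 2) * z := by
  have hn0 : 0 < n := hn.pos
  obtain ⟨hd1, A, B, hA, hB, hv, hA1, hB1⟩ := three_vals hp hq hn0 hd h3
  have V0 := vals_aux hp hq hn0 hd hd1 hA hB hv hA1 hB1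
  have hdiv := V0.odd hn
  have hd0 : d ≠ 0 := M1b_d_ne hp hd1
  have h1 : FF p d c + 1 = (w p d (c : F) : ℂ) := by
    rw [add_comm, ← FF_eq hd0 c, W_eq_w M1b_std_ne hp hd1]
  have h2 : (p : ℤ) ^ ((n + 1) / 2) ∣ w p d (c : F) := by
    rcases hv (c : F) with h | h | h <;> rw [h]
    · exact dvd_zero _
    · exact hdiv.1
    · exact hdiv.2
  obtain ⟨z, hz⟩ := h2
  exact ⟨z, by rw [h1, hz]; push_cast; ring⟩

end

end Pool.Agent.helper75.MS
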